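import Pool.Agent.U516.RD.Fin

/-!
The asymptotic statement.
-/

namespace RD516
open RC14 Finset Filter Topology

noncomputable section

lemma pow_le_exp {ε : ℝ} (hε1 : ε ≤ 1) (L : ℕ) :
    (1 - ε / 2) ^ L ≤ Real.exp (-(ε / 2 * L)) := by
  have h1 : 1 - ε / 2 ≤ Real.exp (-(ε / 2)) := Real.one_sub_le_exp_neg _
  calc (1 - ε / 2) ^ L ≤ Real.exp (-(ε / 2)) ^ L := pow_le_pow_left₀ (by linarith) h1 L
    _ = Real.exp (-(ε / 2 * L)) := by
      rw [← Real.exp_nat_mul]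
      congr 1
      ring

lemma params (δ : ℝ) (hδ : 0 < δ) (hδ1 : δ ≤ 1 / 4) (ε : ℝ) (hε : 0 < ε) (hε1 : ε ≤ 1)
    (ε₂ : ℝ) (hε2 : 0 < ε₂) (hε21 : ε₂ ≤ 1) (e : ℝ) (he : 0 < e) :
    ∀ᶠ n : ℕ in atTop, 400 ≤ n ∧ 2 ≤ ⌊(n : ℝ) ^ (1 - δ)⌋₊ ∧
      (1 - ε / 2) ^ ⌊(n : ℝ) ^ δ⌋₊ * (n : ℝ) ^ 2 ≤ 1 / (16 * (n : ℝ) ^ 2) ∧
      (1 - ε / 2) ^ n * ((n : ℝ) ^ ⌊(n : ℝ) ^ (1 - δ)⌋₊) ^ 2 < 1 ∧
      48 * n ≤ ⌊(n : ℝ) ^ (1 - δ)⌋₊ ^ 2 ∧ 2 * ⌊(n : ℝ) ^ (1 - δ)⌋₊ ≤ n ∧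
      1 ≤ (n : ℝ) ^ δ ∧ 102800 ≤ ((n : ℝ) ^ δ) ^ 2 ∧ (⌊(n : ℝ) ^ δ⌋₊ : ℝ) ≤ (n : ℝ) ^ δ ∧
      (n : ℝ) ≤ 2 * (n : ℝ) ^ δ * ⌊(n : ℝ) ^ (1 - δ)⌋₊ ∧
      (Real.exp (-(n : ℝ) ^ (1 - δ)) + (1 - ε₂ / 2) ^ (2 * ⌊(n : ℝ) ^ δ⌋₊)) * (n : ℝ) ^ 2 / 2 ≤
        e := by
  filter_upwards [eventually_ge_atTop 400, ev_const (1 - δ) 4 (by linarith),
    ev_const δ 102800 hδ, ev_le 1 (2 - 2 * δ) 192 (by linarith), ev_le (1 - δ) 1 2 (by linarith),
    ev_log 0 δ (20 / ε) hδ, ev_log (1 - δ) 1 (8 / ε) (by linarith),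
    ev_log 0 (1 - δ) 3 (by linarith), ev_log 0 δ (6 / ε₂) hδ, ev_const 1 (1 / e) one_pos]
    with n h400 hM4 hX hM48 hM2 hlog1 hlog2 hlog3 hlog4 hne
  have hn : (400 : ℝ) ≤ n := by exact_mod_cast h400
  have hn0 : (0 : ℝ) < n := by linarith
  have hlogn : 0 < Real.log n := Real.log_pos (by linarith)
  rw [Real.rpow_one] at hM48 hM2 hlog2 hne
  rw [Real.rpow_zero, mul_one] at hlog1 hlog3 hlog4
  set Y : ℝ := (n : ℝ) ^ (1 - δ) with hY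
  set X : ℝ := (n : ℝ) ^ δ with hXdef
  have hXY : X * Y = n := by
    rw [hXdef, hY, ← Real.rpow_add hn0]
    have : δ + (1 - δ) = 1 := by ring
    rw [this, Real.rpow_one]
  have hY2 : Y ^ 2 = (n : ℝ) ^ (2 - 2 * δ) := by
    rw [hY, ← Real.rpow_natCast, ← Real.rpow_mul hn0.le]
    congr 1
    push_cast
    ring
  set M := ⌊Y⌋₊ with hMdef
  set L := ⌊X⌋₊ with hLdef
  have hY0 : 0 ≤ Y := by positivity
  have hX0 : 0 ≤ X := by positivity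
  have hMle : (M : ℝ) ≤ Y := Nat.floor_le hY0
  have hMge : Y / 2 ≤ M := by
    have := Nat.lt_floor_add_one Y
    linarith
  have hLle : (L : ℝ) ≤ X := Nat.floor_le hX0
  have hLge : X / 2 ≤ L := by
    have := Nat.lt_floor_add_one X
    linarith
  have hexpn : Real.exp (Real.log n) = n := Real.exp_log hn0
  refine ⟨h400, ?_, ?_, ?_, ?_, ?_, by linarith, ?_, hLle, ?_, ?_⟩
  · have : (2 : ℝ) ≤ M := by linarith
    exact_mod_cast this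
  · -- the mixing on pairs
    have h1 := pow_le_exp hε1 L
    have h2 : 5 * Real.log n ≤ ε / 2 * L := by
      have h3 : ε / 4 * (20 / ε * Real.log n) ≤ ε / 4 * X :=
        mul_le_mul_of_nonneg_left hlog1 (by positivity)
      have h4 : ε / 4 * (20 / ε * Real.log n) = 5 * Real.log n := by
        field_simp
        ring
      have h5 : ε / 2 * (X / 2) ≤ ε / 2 * L := mul_le_mul_of_nonneg_left hLge (by positivity)
      linarith
    have h3 : (1 - ε / 2) ^ L ≤ 1 / (n : ℝ) ^ 5 := by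
      refine h1.trans ?_
      calc Real.exp (-(ε / 2 * L)) ≤ Real.exp (-(5 * Real.log n)) :=
            Real.exp_le_exp.2 (by linarith)
        _ = 1 / (n : ℝ) ^ 5 := by
            rw [Real.exp_neg, one_div]
            congr 1
            have : (5 : ℝ) * Real.log n = ((5 : ℕ) : ℝ) * Real.log n := by norm_num
            rw [this, Real.exp_nat_mul, hexpn]
    calc (1 - ε / 2) ^ L * (n : ℝ) ^ 2 ≤ 1 / (n : ℝ) ^ 5 * (n : ℝ) ^ 2 := by gcongr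
      _ ≤ 1 / (16 * (n : ℝ) ^ 2) := by
          rw [div_mul_eq_mul_div, one_mul, div_le_div_iff₀ (by positivity) (by positivity)]
          have : (16 : ℝ) * ((n : ℝ) ^ 2 * (n : ℝ) ^ 2) ≤ n * ((n : ℝ) ^ 2 * (n : ℝ) ^ 2) := by
            gcongr
            linarith
          nlinarith
  · -- transitivity
    have h1 := pow_le_exp hε1 n
    have h2 : ((n : ℝ) ^ M) ^ 2 ≤ Real.exp (2 * Y * Real.log n) := by
      rw [← pow_mul]
      have h3 : (n : ℝ) ^ (M * 2) = Real.exp (((M * 2 : ℕ) : ℝ) * Real.log n) := by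
        rw [Real.exp_nat_mul, hexpn]
      rw [h3]
      apply Real.exp_le_exp.2
      push_cast
      have : (M : ℝ) * Real.log n ≤ Y * Real.log n := by gcongr
      linarith
    have h3 : 2 * Y * Real.log n ≤ ε / 4 * n := by
      have h4 : ε / 4 * (8 / ε * Y * Real.log n) ≤ ε / 4 * n :=
        mul_le_mul_of_nonneg_left hlog2 (by positivity)
      have h5 : ε / 4 * (8 / ε * Y * Real.log n) = 2 * Y * Real.log n := by
        field_simp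
        ring
      linarith
    calc (1 - ε / 2) ^ n * ((n : ℝ) ^ M) ^ 2
        ≤ Real.exp (-(ε / 2 * n)) * Real.exp (2 * Y * Real.log n) := by gcongr
      _ = Real.exp (-(ε / 2 * n) + 2 * Y * Real.log n) := by rw [Real.exp_add]
      _ < 1 := by
          rw [Real.exp_lt_one_iff]
          have : 0 < ε / 4 * n := by positivity
          linarith
  · have h1 : 48 * (n : ℝ) ≤ (M : ℝ) ^ 2 := by
      have h2 : (Y / 2) ^ 2 ≤ (M : ℝ) ^ 2 := pow_le_pow_left₀ (by positivity) hMge 2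
      rw [div_pow, hY2] at h2
      linarith
    exact_mod_cast h1
  · have h1 : 2 * (M : ℝ) ≤ n := by linarith
    exact_mod_cast h1
  · nlinarith
  · have h1 : X * (Y / 2) ≤ X * M := mul_le_mul_of_nonneg_left hMge hX0
    linarith
  · have hcube : ∀ a : ℝ, 3 * Real.log n ≤ a → Real.exp (-a) * (n : ℝ) ^ 2 ≤ e := by
      intro a ha
      have h1 : Real.exp (-a) ≤ 1 / (n : ℝ) ^ 3 := by
        calc Real.exp (-a) ≤ Real.exp (-(3 * Real.log n)) := Real.exp_le_exp.2 (by linarith)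
          _ = 1 / (n : ℝ) ^ 3 := by
            rw [Real.exp_neg, one_div]
            congr 1
            have : (3 : ℝ) * Real.log n = ((3 : ℕ) : ℝ) * Real.log n := by norm_num
            rw [this, Real.exp_nat_mul, hexpn]
      calc Real.exp (-a) * (n : ℝ) ^ 2 ≤ 1 / (n : ℝ) ^ 3 * (n : ℝ) ^ 2 := by gcongr
        _ = 1 / (n : ℝ) := by field_simp
        _ ≤ e := by
          rw [div_le_iff₀ hn0]
          rw [div_le_iff₀ he] at hne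
          linarith
    have h1 := hcube Y hlog3
    have h2 : (1 - ε₂ / 2) ^ (2 * L) * (n : ℝ) ^ 2 ≤ e := by
      have h3 := pow_le_exp hε21 (2 * L)
      have h4 : 3 * Real.log n ≤ ε₂ / 2 * ((2 * L : ℕ) : ℝ) := by
        have h5 : ε₂ / 2 * (6 / ε₂ * Real.log n) ≤ ε₂ / 2 * X :=
          mul_le_mul_of_nonneg_left hlog4 (by positivity)
        have h6 : ε₂ / 2 * (6 / ε₂ * Real.log n) = 3 * Real.log n := by
          field_simp
          ring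
        have h7 : ε₂ / 2 * (2 * (X / 2)) ≤ ε₂ / 2 * (2 * L) := by gcongr
        push_cast
        linarith
      have h5 := hcube _ h4
      refine le_trans ?_ h5
      gcongr
    rw [add_mul]
    linarith

/-- the main statement -/
theorem main (δ : ℝ) (hδ : 0 < δ) : ∃ k₀ : ℕ, ∀ k ≥ k₀,
    Tendsto (fun n : ℕ => (Nat.card {x : Fin k → Alt n //
      ∀ σ : Equiv.Perm (Fin n), Equiv.Perm.sign σ = 1 →
        ∃ D : ℕ, (D : ℝ) ≤ (n : ℝ) ^ (1 + δ) ∧ σ ∈ PB x D} : ℝ) /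
        (Fintype.card (Alt n) : ℝ) ^ k) atTop (𝓝 1) := by
  set δ₁ : ℝ := min (δ / 10) (1 / 4) with hδ1
  have hd0 : 0 < δ₁ := lt_min (by linarith) (by norm_num)
  have hd1 : δ₁ ≤ 1 / 4 := min_le_right _ _
  have hd2 : 10 * δ₁ ≤ δ := by
    have := min_le_left (δ / 10) (1 / 4 : ℝ)
    linarith
  obtain ⟨ka, hka⟩ := Pool.Agent.Results.MP_75608d_al.GapAllTuples.result δ₁ hd0
  obtain ⟨kb, hkb⟩ := Pool.Agent.Results.MP_75608d_al.FewExceptionalEigenvalues.result δ₁ hd0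
  refine ⟨ka + kb + 2, fun K hK => ?_⟩
  obtain ⟨k, rfl⟩ : ∃ k, K = k + 1 := ⟨K - 1, by omega⟩
  obtain ⟨εa, hεa, hta⟩ := hka (k + 1) (by omega)
  obtain ⟨εb, hεb, htb⟩ := hkb k (by omega)
  set ε : ℝ := min εa 1 with hε
  set ε₂ : ℝ := min εb 1 with hε2
  have h1 : 0 < ε := lt_min hεa one_pos
  have h2 : ε ≤ 1 := min_le_right _ _
  have h3 : ε ≤ εa := min_le_left _ _
  have h4 : 0 < ε₂ := lt_min hεb one_pos
  have h5 : ε₂ ≤ 1 := min_le_right _ _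
  have h6 : ε₂ ≤ εb := min_le_left _ _
  refine tendsto_of_bad (fun n (x : Fin (k + 1) → Alt n) =>
    ∀ σ : Equiv.Perm (Fin n), Equiv.Perm.sign σ = 1 →
        ∃ D : ℕ, (D : ℝ) ≤ (n : ℝ) ^ (1 + δ) ∧ σ ∈ PB x D) fun e he => ?_
  have hba := bad_of_tendsto _ hta (e / 3) (by linarith)
  have hbb := bad_of_tendsto _ htb (e / 3) (by linarith)
  filter_upwards [hba, hbb, params δ₁ hd0 hd1 ε h1 h2 ε₂ h4 h5 (e / 3) (by linarith)]
    with n hna hnb hp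
  obtain ⟨p1, p2, p3, p4, p5, p6, p7, p8, p9, p10, p11⟩ := hp
  have hn : (400 : ℝ) ≤ n := by exact_mod_cast p1
  have hn0 : (0 : ℝ) < n := by linarith
  have hN : (0 : ℝ) < Fintype.card (Alt n) := by exact_mod_cast Fintype.card_pos
  have key := one_n (n := n) (k := k) (η := Real.exp (-(n : ℝ) ^ (1 - δ₁))) (by omega)
    (by linarith) h5 (Real.exp_pos _).le p1 p2 p3 p4
    p5 p6 p7 p8 p9 p10
  -- the exponent
  have hexp : (n : ℝ) * ((n : ℝ) ^ δ₁) ^ (10 : ℕ) ≤ (n : ℝ) ^ (1 + δ) := by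
    rw [← Real.rpow_natCast, ← Real.rpow_mul hn0.le]
    calc (n : ℝ) * (n : ℝ) ^ (δ₁ * (10 : ℕ)) = (n : ℝ) ^ (1 + δ₁ * (10 : ℕ)) := by
          rw [Real.rpow_add hn0, Real.rpow_one]
      _ ≤ (n : ℝ) ^ (1 + δ) := by
          apply Real.rpow_le_rpow_of_exponent_le (by linarith)
          push_cast
          linarith
  have hmono : (Nat.card {x : Fin (k + 1) → Alt n // ¬ ∀ σ : Equiv.Perm (Fin n),
      Equiv.Perm.sign σ = 1 → ∃ D : ℕ, (D : ℝ) ≤ (n : ℝ) ^ (1 + δ) ∧ σ ∈ PB x D} : ℝ) ≤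
      Nat.card {x : Fin (k + 1) → Alt n // ¬ ∀ σ : Equiv.Perm (Fin n),
      Equiv.Perm.sign σ = 1 → ∃ D : ℕ, (D : ℝ) ≤ n * ((n : ℝ) ^ δ₁) ^ (10 : ℕ) ∧ σ ∈ PB x D} := by
    exact_mod_cast RC14.card_mono (fun x : Fin (k + 1) → Alt n => ¬ ∀ σ : Equiv.Perm (Fin n),
      Equiv.Perm.sign σ = 1 → ∃ D : ℕ, (D : ℝ) ≤ (n : ℝ) ^ (1 + δ) ∧ σ ∈ PB x D)
      (fun x => ¬ ∀ σ : Equiv.Perm (Fin n), Equiv.Perm.sign σ = 1 →
        ∃ D : ℕ, (D : ℝ) ≤ n * ((n : ℝ) ^ δ₁) ^ (10 : ℕ) ∧ σ ∈ PB x D) (by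
        intro x hx hcon
        apply hx
        intro σ hσ
        obtain ⟨D, hD, hσD⟩ := hcon σ hσ
        exact ⟨D, hD.trans hexp, hσD⟩)
  have hA : (Nat.card {x : Fin (k + 1) → Alt n //
      ¬ ∀ r ≤ ⌊(n : ℝ) ^ (1 - δ₁)⌋₊, TGap x ε r} : ℝ) ≤
      e / 3 * (Fintype.card (Alt n) : ℝ) ^ (k + 1) := by
    refine le_trans ?_ hna
    exact_mod_cast RC14.card_mono (fun x : Fin (k + 1) → Alt n =>
      ¬ ∀ r ≤ ⌊(n : ℝ) ^ (1 - δ₁)⌋₊, TGap x ε r) (fun x =>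
      ¬ Pool.Agent.Results.MP_75608d_al.GapAllTuples.GapUpTo n ⌊(n : ℝ) ^ (1 - δ₁)⌋₊ εa x) (by
        intro x hx hcon
        exact hx fun r hr => tgap_mono h3 (hcon.2 r hr))
  have hB : (Nat.card {y : Fin k → Alt n //
      ¬ IrrFew ε₂ (Real.exp (-(n : ℝ) ^ (1 - δ₁))) y} : ℝ) ≤
      e / 3 * (Fintype.card (Alt n) : ℝ) ^ k := by
    refine le_trans ?_ hnb
    exact_mod_cast RC14.card_mono (fun y : Fin k → Alt n =>
      ¬ IrrFew ε₂ (Real.exp (-(n : ℝ) ^ (1 - δ₁))) y) (fun y =>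
      ¬ Pool.Agent.Results.MP_75608d_al.FewExceptionalEigenvalues.FewExceptional εb
        (Real.exp (-(n : ℝ) ^ (1 - δ₁))) y) (by
        intro y hy hcon
        exact hy (irrFew_of h6 hcon))
  refine hmono.trans (key.trans ?_)
  have e1 : (Fintype.card (Alt n) : ℝ) * Nat.card {y : Fin k → Alt n //
      ¬ IrrFew ε₂ (Real.exp (-(n : ℝ) ^ (1 - δ₁))) y} ≤
      e / 3 * (Fintype.card (Alt n) : ℝ) ^ (k + 1) := by
    calc _ ≤ (Fintype.card (Alt n) : ℝ) * (e / 3 * (Fintype.card (Alt n) : ℝ) ^ k) := by gcongr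
      _ = e / 3 * (Fintype.card (Alt n) : ℝ) ^ (k + 1) := by ring
  have e2 : (Fintype.card (Alt n) : ℝ) ^ k * ((Real.exp (-(n : ℝ) ^ (1 - δ₁)) +
      (1 - ε₂ / 2) ^ (2 * ⌊(n : ℝ) ^ δ₁⌋₊)) * (n : ℝ) ^ 2 / 2 * Fintype.card (Alt n)) ≤
      e / 3 * (Fintype.card (Alt n) : ℝ) ^ (k + 1) := by
    calc _ ≤ (Fintype.card (Alt n) : ℝ) ^ k * (e / 3 * Fintype.card (Alt n)) := by gcongr
      _ = e / 3 * (Fintype.card (Alt n) : ℝ) ^ (k + 1) := by ring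
  linarith

end

end RD516
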