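import Mathlib

/-!
Words of bounded length in the generators, seen as permutations.
-/

namespace RD516
open Finset Equiv

/-- the permutations which are products of at most `L` factors from `{x_i, x_i⁻¹}` -/
def PB {n k : ℕ} (x : Fin k → alternatingGroup (Fin n)) (L : ℕ) : Set (Perm (Fin n)) :=
  {σ | ∃ w : List (alternatingGroup (Fin n)), w.length ≤ L ∧
    (∀ y ∈ w, ∃ i, y = x i ∨ y = (x i)⁻¹) ∧ ((w.prod : alternatingGroup (Fin n)) : Perm (Fin n)) = σ}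

variable {n k : ℕ} {x : Fin k → alternatingGroup (Fin n)}

lemma PB.mono {L M : ℕ} (h : L ≤ M) {σ : Perm (Fin n)} (hσ : σ ∈ PB x L) : σ ∈ PB x M := by
  obtain ⟨w, h1, h2, h3⟩ := hσ
  exact ⟨w, h1.trans h, h2, h3⟩

lemma PB.one (L : ℕ) : (1 : Perm (Fin n)) ∈ PB x L :=
  ⟨[], by simp, by simp, by simp⟩

lemma PB.gen (i : Fin k) : ((x i : alternatingGroup (Fin n)) : Perm (Fin n)) ∈ PB x 1 :=
  ⟨[x i], by simp, by simp only [List.mem_singleton, forall_eq]; exact ⟨i, Or.inl rfl⟩, by simp⟩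

lemma PB.mul {L M : ℕ} {σ τ : Perm (Fin n)} (hσ : σ ∈ PB x L) (hτ : τ ∈ PB x M) :
    σ * τ ∈ PB x (L + M) := by
  obtain ⟨w, h1, h2, h3⟩ := hσ
  obtain ⟨v, g1, g2, g3⟩ := hτ
  refine ⟨w ++ v, by rw [List.length_append]; omega, ?_, ?_⟩
  · intro y hy
    rcases List.mem_append.1 hy with h | h
    · exact h2 y h
    · exact g2 y h
  · rw [List.prod_append, Subgroup.coe_mul, h3, g3]

lemma PB.inv {L : ℕ} {σ : Perm (Fin n)} (hσ : σ ∈ PB x L) : σ⁻¹ ∈ PB x L := by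
  obtain ⟨w, h1, h2, h3⟩ := hσ
  refine ⟨(w.map fun y => y⁻¹).reverse, by simpa using h1, ?_, ?_⟩
  · intro y hy
    rw [List.mem_reverse, List.mem_map] at hy
    obtain ⟨z, hz, rfl⟩ := hy
    obtain ⟨i, hi | hi⟩ := h2 z hz
    · exact ⟨i, Or.inr (by rw [hi])⟩
    · exact ⟨i, Or.inl (by rw [hi, inv_inv])⟩
  · rw [← List.prod_inv_reverse, Subgroup.coe_inv, h3]

lemma PB.conj {L M : ℕ} {σ τ : Perm (Fin n)} (hσ : σ ∈ PB x L) (hτ : τ ∈ PB x M) :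
    τ * σ * τ⁻¹ ∈ PB x (L + 2 * M) :=
  PB.mono (by omega) (PB.mul (PB.mul hτ hσ) (PB.inv hτ))

lemma PB.pow {L : ℕ} {σ : Perm (Fin n)} (hσ : σ ∈ PB x L) (m : ℕ) : σ ^ m ∈ PB x (m * L) := by
  induction m with
  | zero => rw [pow_zero]; exact PB.one _
  | succ m ih =>
    rw [pow_succ]
    exact PB.mono (by rw [Nat.succ_mul]) (PB.mul ih hσ)

lemma PB.mem_alt {L : ℕ} {σ : Perm (Fin n)} (hσ : σ ∈ PB x L) : σ ∈ alternatingGroup (Fin n) := by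
  obtain ⟨w, _, _, h3⟩ := hσ
  rw [← h3]
  exact (w.prod).2

/-- appending more generators does not destroy words -/
lemma PB.extend {k' : ℕ} {y : Fin k' → alternatingGroup (Fin n)} (hxy : ∀ i, ∃ j, x i = y j)
    {L : ℕ} {σ : Perm (Fin n)} (hσ : σ ∈ PB x L) : σ ∈ PB y L := by
  obtain ⟨w, h1, h2, h3⟩ := hσ
  refine ⟨w, h1, fun z hz => ?_, h3⟩
  obtain ⟨i, hi⟩ := h2 z hz
  obtain ⟨j, hj⟩ := hxy i
  refine ⟨j, ?_⟩
  rw [← hj]
  exact hi

end RD516
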