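import Pool.Agent.R236.ExcD
import Pool.Agent.H995R2.RC.AMP1
import Pool.Agent.U516.RD.Words

/-!
Decay of the lazy walk on class functions if every nontrivial irreducible representation has few
exceptional eigenvalues.
-/

namespace RD516
open RC14 Finset
open scoped InnerProductSpace

noncomputable section

section tr
variable {G : Type} [Group G] [Fintype G]
variable {V : Type} [NormedAddCommGroup V] [InnerProductSpace ℂ V] [FiniteDimensional ℂ V]

/-- the quadratic form of a symmetric operator in an eigenbasis -/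
lemma quad_eigen (T : Module.End ℂ V) (hT : T.IsSymmetric) {d : ℕ}
    (hd : Module.finrank ℂ V = d) (v : V) :
    (⟪T v, v⟫_ℂ).re = ∑ i, hT.eigenvalues hd i * ‖⟪hT.eigenvectorBasis hd i, v⟫_ℂ‖ ^ 2 := by
  have hTb : ∀ i, T (hT.eigenvectorBasis hd i) =
      (hT.eigenvalues hd i : ℂ) • hT.eigenvectorBasis hd i :=
    fun i => hT.apply_eigenvectorBasis hd i
  rw [← (hT.eigenvectorBasis hd).sum_inner_mul_inner (T v) v, Complex.re_sum]
  apply Finset.sum_congr rfl
  intro i _
  rw [hT v (hT.eigenvectorBasis hd i), hTb, inner_smul_right, mul_assoc,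
    ← inner_conj_symm v (hT.eigenvectorBasis hd i), mul_comm (starRingEnd ℂ _) _,
    Complex.mul_conj, ← Complex.ofReal_mul, Complex.ofReal_re, Complex.normSq_eq_norm_sq]

/-- trace of the powers of the lazy walk if few eigenvalues are exceptional -/
lemma tr_le (ρ : G →* (V ≃ₗᵢ[ℂ] V)) {k : ℕ} (hk : 1 ≤ k) (x : Fin k → G) {ε η : ℝ}
    (hε1 : ε ≤ 1) (h : Pool.Agent.R236.Exc.FewAbove ε η ρ x) (L : ℕ) :
    rtr (TL ρ x ^ (2 * L)) ≤ (η + (1 - ε / 2) ^ (2 * L)) * Module.finrank ℂ V := by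
  classical
  set T := TL ρ x with hTdef
  have hT : T.IsSymmetric := TL_symm ρ x
  set d := Module.finrank ℂ V with hd
  set b := hT.eigenvectorBasis hd.symm with hb
  set μ := hT.eigenvalues hd.symm with hμdef
  have hk' : (0 : ℝ) < k := by exact_mod_cast hk
  have hTb : ∀ i, T (b i) = (μ i : ℂ) • b i := fun i => hT.apply_eigenvectorBasis hd.symm i
  have hpow : ∀ (L : ℕ) (i), (T ^ L) (b i) = ((μ i : ℂ) ^ L) • b i := by
    intro L i
    induction L with
    | zero => simp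
    | succ L ih =>
      rw [pow_succ', Module.End.mul_apply, ih, map_smul, hTb, smul_smul, pow_succ]
  have hE : ∀ v, ‖v‖ ^ 2 - (⟪T v, v⟫_ℂ).re = En ρ x v / (4 * k) := fun v => TL_energy ρ hk x v
  have hμ : ∀ i, 0 ≤ μ i ∧ μ i ≤ 1 := by
    intro i
    have h1 := hE (b i)
    rw [hTb, inner_smul_left, b.inner_eq_one i, b.norm_eq_one i] at h1
    have h2 : ((starRingEnd ℂ) (μ i : ℂ) * 1).re = μ i := by simp
    rw [h2] at h1
    have h3 := RET.En_le ρ x (b i)
    rw [b.norm_eq_one i] at h3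
    have h4 : 0 ≤ En ρ x (b i) := RC14.En_nonneg _ _ _
    have h5 : En ρ x (b i) / (4 * k) ≤ 1 := by
      rw [div_le_one (by positivity)]
      linarith
    have h6 : 0 ≤ En ρ x (b i) / (4 * k) := by positivity
    constructor <;> linarith
  set θ : ℝ := 1 - ε / 2 with hθ
  have hθ0 : 0 ≤ θ := by rw [hθ]; linarith
  -- the exceptional space
  let U : Submodule ℂ V := Submodule.span ℂ (Set.range fun i : {i // θ ≤ μ i} => b i)
  have hUfin : Module.finrank ℂ U = Fintype.card {i // θ ≤ μ i} := by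
    refine finrank_span_eq_card ?_
    exact (b.orthonormal.linearIndependent).comp _ Subtype.val_injective
  have hUort : ∀ v ∈ U, ∀ j, μ j < θ → ⟪b j, v⟫_ℂ = 0 := by
    intro v hv j hj
    induction hv using Submodule.span_induction with
    | mem v hv =>
      obtain ⟨i, rfl⟩ := hv
      refine b.inner_eq_zero ?_
      intro hij
      have := i.2
      rw [← hij] at this
      linarith
    | zero => simp
    | add u v _ _ hu hv => rw [inner_add_right, hu, hv, add_zero]
    | smul a v _ hv => rw [inner_smul_right, hv, mul_zero]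
  have hUq : ∀ v ∈ U, (1 - ε) * ‖v‖ ^ 2 ≤ (⟪Pool.Agent.R236.Exc.wop ρ x v, v⟫_ℂ).re := by
    intro v hv
    have h1 := Pool.Agent.R236.Exc.wop_energy ρ hk x v
    have h2 := hE v
    have h3 : θ * ‖v‖ ^ 2 ≤ (⟪T v, v⟫_ℂ).re := by
      rw [quad_eigen T hT hd.symm v, ← (b.sum_sq_norm_inner_right v), Finset.mul_sum]
      refine Finset.sum_le_sum fun i _ => ?_
      by_cases hi : θ ≤ μ i
      · exact mul_le_mul_of_nonneg_right hi (by positivity)
      · push Not at hi
        have h4 := hUort v hv i hi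
        rw [← hb, h4]
        simp
    have h4 : En ρ x v / (2 * k) = 2 * (En ρ x v / (4 * k)) := by
      field_simp
      ring
    rw [h4, ← h2] at h1
    have h5 : θ = 1 - ε / 2 := hθ
    nlinarith
  have hcard := h U hUq
  rw [hUfin] at hcard
  unfold rtr
  rw [LinearMap.trace_eq_sum_inner (T ^ (2 * L)) b, Complex.re_sum]
  have hterm : ∀ i, (⟪b i, (T ^ (2 * L)) (b i)⟫_ℂ).re ≤
      (if θ ≤ μ i then (1 : ℝ) else 0) + θ ^ (2 * L) := by
    intro i
    rw [hpow, inner_smul_right, b.inner_eq_one i, mul_one, ← Complex.ofReal_pow,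
      Complex.ofReal_re]
    have hp : 0 ≤ θ ^ (2 * L) := pow_nonneg hθ0 _
    split_ifs with hi
    · have : μ i ^ (2 * L) ≤ 1 := pow_le_one₀ (hμ i).1 (hμ i).2
      linarith
    · push Not at hi
      have : μ i ^ (2 * L) ≤ θ ^ (2 * L) := pow_le_pow_left₀ (hμ i).1 hi.le _
      linarith
  refine (Finset.sum_le_sum fun i _ => hterm i).trans ?_
  rw [Finset.sum_add_distrib, Finset.sum_const, Finset.card_univ, Fintype.card_fin, nsmul_eq_mul,
    ← Finset.sum_filter, Finset.sum_const, nsmul_eq_mul, mul_one]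
  have h7 : (#(univ.filter fun i => θ ≤ μ i) : ℝ) ≤ η * d := by
    rw [Fintype.card_subtype] at hcard
    exact hcard
  linarith

end tr

section cls
variable {n k : ℕ}

/-- in every nontrivial irreducible unitary representation at most a proportion `η` of the
eigenvalues of the walk operator is at least `1 - ε` -/
def IrrFew (ε η : ℝ) (x : Fin k → Alt n) : Prop :=
  ∀ (W : Type) [NormedAddCommGroup W] [InnerProductSpace ℂ W] [FiniteDimensional ℂ W]
    (ρ : Alt n →* (W ≃ₗᵢ[ℂ] W)), Irr ρ ⊤ → (∃ g v, ρ g v ≠ v) →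
    Pool.Agent.R236.Exc.FewAbove ε η ρ x

/-- the functions of sum zero -/
def V0 (n : ℕ) : Submodule ℂ (FA n) where
  carrier := {v | ∑ g, v g = 0}
  zero_mem' := by simp
  add_mem' := by
    intro a b ha hb
    have h1 : ∑ g, (a + b) g = ∑ g, a g + ∑ g, b g := by
      rw [← Finset.sum_add_distrib]
      rfl
    change ∑ g, (a + b) g = 0
    rw [h1, ha, hb, add_zero]
  smul_mem' := by
    intro c a ha
    have h1 : ∑ g, (c • a) g = c * ∑ g, a g := by
      rw [Finset.mul_sum]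
      rfl
    change ∑ g, (c • a) g = 0
    rw [h1, ha, mul_zero]

lemma mem_V0 (v : FA n) : v ∈ V0 n ↔ ∑ g, v g = 0 := Iff.rfl

lemma V0_inv : Inv (RR n) (V0 n) := by
  intro g v hv
  rw [mem_V0] at hv ⊢
  rw [← hv]
  simp only [RR_apply]
  exact Equiv.sum_comp (Equiv.mulRight g) fun h => v h

/-- the lazy walk commutes with the inclusion of an invariant subspace -/
lemma TL_res (ρ : Alt n →* (FA n ≃ₗᵢ[ℂ] FA n)) (W : Submodule ℂ (FA n)) (hW : Inv ρ W)
    (x : Fin k → Alt n) (w : W) : ((TL (res ρ W hW) x w : W) : FA n) = TL ρ x w := by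
  rw [WORDS.TL_apply, WORDS.TL_apply, Submodule.coe_smul, Submodule.coe_add, Submodule.coe_smul,
    Submodule.coe_sum]
  rfl

lemma TL_res_pow (ρ : Alt n →* (FA n ≃ₗᵢ[ℂ] FA n)) (W : Submodule ℂ (FA n)) (hW : Inv ρ W)
    (x : Fin k → Alt n) (L : ℕ) (w : W) :
    (((TL (res ρ W hW) x ^ L) w : W) : FA n) = (TL ρ x ^ L) w := by
  induction L with
  | zero => simp
  | succ L ih => rw [pow_succ', pow_succ', Module.End.mul_apply, Module.End.mul_apply, TL_res, ih]

/-- the sum of the conjugates -/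
def cavg {W : Type} [NormedAddCommGroup W] [InnerProductSpace ℂ W]
    (ρ : Alt n →* (W ≃ₗᵢ[ℂ] W)) (A : Module.End ℂ W) : Module.End ℂ W :=
  ∑ h : Alt n, op ρ h * A * op ρ h⁻¹

lemma cavg_comm {W : Type} [NormedAddCommGroup W] [InnerProductSpace ℂ W]
    (ρ : Alt n →* (W ≃ₗᵢ[ℂ] W)) (A : Module.End ℂ W) (g : Alt n) :
    op ρ g * cavg ρ A = cavg ρ A * op ρ g := by
  unfold cavg
  rw [Finset.mul_sum, Finset.sum_mul]
  rw [← Equiv.sum_comp (Equiv.mulLeft g⁻¹)
    (fun h => op ρ g * (op ρ h * A * op ρ h⁻¹))]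
  refine Finset.sum_congr rfl fun h _ => ?_
  rw [Equiv.coe_mulLeft, mul_inv_rev, inv_inv, op_mul, op_mul]
  have h1 : op ρ g * op ρ g⁻¹ = 1 := by rw [← op_mul, mul_inv_cancel, op_one]
  calc op ρ g * (op ρ g⁻¹ * op ρ h * A * (op ρ h⁻¹ * op ρ g))
      = (op ρ g * op ρ g⁻¹) * op ρ h * A * (op ρ h⁻¹ * op ρ g) := by
        simp only [mul_assoc]
    _ = op ρ h * A * op ρ h⁻¹ * op ρ g := by
        rw [h1, one_mul]
        simp only [mul_assoc]

lemma cavg_trace {W : Type} [NormedAddCommGroup W] [InnerProductSpace ℂ W]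
    [FiniteDimensional ℂ W] (ρ : Alt n →* (W ≃ₗᵢ[ℂ] W)) (A : Module.End ℂ W) :
    rtr (cavg ρ A) = Fintype.card (Alt n) * rtr A := by
  unfold cavg rtr
  rw [map_sum]
  have h1 : ∀ h : Alt n, LinearMap.trace ℂ W (op ρ h * A * op ρ h⁻¹) = LinearMap.trace ℂ W A := by
    intro h
    rw [LinearMap.trace_mul_comm, ← mul_assoc, ← op_mul, inv_mul_cancel, op_one, one_mul]
  rw [Finset.sum_congr rfl fun h _ => h1 h, Finset.sum_const, Finset.card_univ, nsmul_eq_mul]
  simp

lemma inner_op (ρ : Alt n →* (FA n ≃ₗᵢ[ℂ] FA n)) (h : Alt n) (u v : FA n) :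
    ⟪op ρ h u, v⟫_ℂ = ⟪u, op ρ h⁻¹ v⟫_ℂ := by
  have h1 : op ρ h (op ρ h⁻¹ v) = v := by
    rw [← Module.End.mul_apply, ← op_mul, mul_inv_cancel, op_one]
    rfl
  conv_lhs => rw [← h1]
  exact (ρ h).inner_map_map _ _

lemma cavg_symm (ρ : Alt n →* (FA n ≃ₗᵢ[ℂ] FA n)) (A : Module.End ℂ (FA n))
    (hA : A.IsSymmetric) : (cavg ρ A).IsSymmetric := by
  intro u v
  unfold cavg
  rw [LinearMap.sum_apply, LinearMap.sum_apply, sum_inner, inner_sum]
  refine Finset.sum_congr rfl fun h _ => ?_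
  rw [Module.End.mul_apply, Module.End.mul_apply, Module.End.mul_apply, Module.End.mul_apply,
    inner_op, hA]
  have h2 := inner_op ρ h⁻¹ u (A (op ρ h⁻¹ v))
  rw [inv_inv] at h2
  exact h2

/-- the quadratic form of the conjugation average is bounded on functions of sum zero -/
theorem cavg_le (hk : 1 ≤ k) {ε η : ℝ} (hε1 : ε ≤ 1) (x : Fin k → Alt n)
    (hx : IrrFew ε η x) (L : ℕ) (v : FA n) (hv : v ∈ V0 n) :
    (⟪cavg (RR n) (TL (RR n) x ^ (2 * L)) v, v⟫_ℂ).re ≤
      Fintype.card (Alt n) * (η + (1 - ε / 2) ^ (2 * L)) * ‖v‖ ^ 2 := by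
  classical
  set A := TL (RR n) x ^ (2 * L) with hAdef
  have hTs : (TL (RR n) x).IsSymmetric := TL_symm (RR n) x
  have hA : A.IsSymmetric := hTs.pow (2 * L)
  set B := cavg (RR n) A with hB
  have hBs : B.IsSymmetric := cavg_symm _ _ hA
  -- invariance of `V0`
  have hop : ∀ h : Alt n, ∀ v ∈ V0 n, op (RR n) h v ∈ V0 n := fun h v hv => V0_inv h v hv
  have hTV : ∀ v ∈ V0 n, TL (RR n) x v ∈ V0 n := by
    intro v hv
    rw [← TL_res (RR n) (V0 n) V0_inv x ⟨v, hv⟩]
    exact Subtype.mem _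
  have hAV : ∀ v ∈ V0 n, A v ∈ V0 n := by
    intro v hv
    rw [hAdef, ← TL_res_pow (RR n) (V0 n) V0_inv x (2 * L) ⟨v, hv⟩]
    exact Subtype.mem _
  have hBV : ∀ v ∈ V0 n, B v ∈ V0 n := by
    intro v hv
    rw [hB]
    unfold cavg
    rw [LinearMap.sum_apply]
    refine Submodule.sum_mem _ fun h _ => ?_
    exact hop _ _ (hAV _ (hop _ _ hv))
  have hB0s := hBs.restrict_invariant hBV
  generalize hB0 : LinearMap.restrict B hBV = B0 at hB0s
  have hB0v : ∀ w : V0 n, ((B0 w : V0 n) : FA n) = B w := fun w => by rw [← hB0]; rfl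
  set c : ℝ := Fintype.card (Alt n) * (η + (1 - ε / 2) ^ (2 * L)) with hc
  -- every eigenvalue of `B0` is at most `c`
  have heig : ∀ i, hB0s.eigenvalues rfl i ≤ c := by
    intro i
    set lam := hB0s.eigenvalues rfl i with hlam
    have hbi : B0 (hB0s.eigenvectorBasis rfl i) = (lam : ℂ) • hB0s.eigenvectorBasis rfl i :=
      hB0s.apply_eigenvectorBasis rfl i
    set w0 := hB0s.eigenvectorBasis rfl i with hw0
    have hw0ne : (w0 : FA n) ≠ 0 := by
      intro h
      have h1 : ‖w0‖ = 1 := (hB0s.eigenvectorBasis rfl).norm_eq_one i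
      have h2 : w0 = 0 := Subtype.ext h
      rw [h2, norm_zero] at h1
      exact zero_ne_one h1
    let U : Submodule ℂ (FA n) := V0 n ⊓ LinearMap.ker (B - (lam : ℂ) • 1)
    have hUmem : ∀ v, v ∈ U ↔ v ∈ V0 n ∧ B v = (lam : ℂ) • v := by
      intro v
      rw [Submodule.mem_inf, LinearMap.mem_ker, LinearMap.sub_apply, sub_eq_zero]
      rfl
    have hUinv : Inv (RR n) U := by
      intro g v hv
      rw [hUmem] at hv ⊢
      refine ⟨V0_inv g v hv.1, ?_⟩
      have h1 := congrArg (fun F : Module.End ℂ (FA n) => F v) (cavg_comm (RR n) A g)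
      change op (RR n) g (B v) = B (op (RR n) g v) at h1
      change B (op (RR n) g v) = _
      rw [← h1, hv.2, map_smul]
      rfl
    have hU0 : U ≠ ⊥ := by
      intro h
      apply hw0ne
      have h1 : (w0 : FA n) ∈ U := by
        rw [hUmem]
        refine ⟨w0.2, ?_⟩
        have := congrArg Subtype.val hbi
        rw [hB0v] at this
        exact this
      rw [h, Submodule.mem_bot] at h1
      exact h1
    obtain ⟨W, hW, hWU⟩ := DECOMP.exists_irr (RR n) U hUinv hU0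
    set ρ' := res (RR n) W hW.2.1 with hρ'
    have hirr : Irr ρ' ⊤ := AMP1.irr_res (RR n) W hW
    have hnt : ∃ g v, ρ' g v ≠ v := by
      by_contra hcon
      push Not at hcon
      apply hW.1
      rw [Submodule.eq_bot_iff]
      intro w hw
      have h1 : ∀ g : Alt n, RR n g w = w := fun g => congrArg Subtype.val (hcon g ⟨w, hw⟩)
      have h2 : ∀ g : Alt n, w g = w 1 := by
        intro g
        have h3 := congrArg (fun u : FA n => u 1) (h1 g)
        simp only [RR_apply, one_mul] at h3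
        exact h3
      have h3 : ∑ g, w g = 0 := ((hUmem w).1 (hWU hw)).1
      rw [Finset.sum_congr rfl fun g _ => h2 g, Finset.sum_const, Finset.card_univ,
        nsmul_eq_mul] at h3
      have h4 : w 1 = 0 := by
        rcases mul_eq_zero.1 h3 with h | h
        · exact absurd h (by exact_mod_cast Fintype.card_ne_zero)
        · exact h
      ext g
      rw [h2 g, h4]
      rfl
    have hfew := hx W ρ' hirr hnt
    have htr := tr_le ρ' hk x hε1 hfew L
    have hBW : cavg ρ' (TL ρ' x ^ (2 * L)) = (lam : ℂ) • 1 := by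
      apply LinearMap.ext
      intro w
      apply Subtype.ext
      have h1 : ((cavg ρ' (TL ρ' x ^ (2 * L)) w : W) : FA n) = B w := by
        unfold cavg
        rw [LinearMap.sum_apply, hB]
        unfold cavg
        rw [LinearMap.sum_apply, Submodule.coe_sum]
        refine Finset.sum_congr rfl fun h _ => ?_
        change RR n h (((TL ρ' x ^ (2 * L)) (ρ' h⁻¹ w) : W) : FA n) = _
        rw [TL_res_pow]
        rfl
      rw [h1, ((hUmem w).1 (hWU w.2)).2]
      rfl
    have h5 := cavg_trace ρ' (TL ρ' x ^ (2 * L))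
    have h6 : rtr ((lam : ℂ) • (1 : Module.End ℂ W)) = lam * Module.finrank ℂ W := by
      unfold rtr
      rw [map_smul, LinearMap.trace_one, smul_eq_mul, Complex.re_ofReal_mul, Complex.natCast_re]
    rw [hBW, h6] at h5
    have hd : (0 : ℝ) < Module.finrank ℂ W := by
      have : 0 < Module.finrank ℂ W := by
        rw [Module.finrank_pos_iff_exists_ne_zero]
        obtain ⟨w, hw, hw0⟩ := Submodule.exists_mem_ne_zero_of_ne_bot hW.1
        exact ⟨⟨w, hw⟩, fun h => hw0 (congrArg Subtype.val h)⟩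
      exact_mod_cast this
    have h7 : lam * Module.finrank ℂ W ≤ c * Module.finrank ℂ W := by
      rw [h5, hc, mul_assoc]
      exact mul_le_mul_of_nonneg_left htr (Nat.cast_nonneg _)
    exact le_of_mul_le_mul_right h7 hd
  -- conclusion
  have h1 : (⟪B v, v⟫_ℂ).re = (⟪B0 ⟨v, hv⟩, (⟨v, hv⟩ : V0 n)⟫_ℂ).re := by
    rw [← hB0]
    rfl
  have h3 := quad_eigen (V := V0 n) B0 hB0s rfl ⟨v, hv⟩
  have h2 : ‖v‖ ^ 2 = ‖(⟨v, hv⟩ : V0 n)‖ ^ 2 := rfl
  refine h1.trans_le (h3.trans_le ?_)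
  rw [h2, ← ((hB0s.eigenvectorBasis rfl).sum_sq_norm_inner_right (⟨v, hv⟩ : V0 n)), Finset.mul_sum]
  exact Finset.sum_le_sum fun i _ => mul_le_mul_of_nonneg_right (heig i) (by positivity)

/-- left translation -/
def LTr (h : Alt n) (v : FA n) : FA n := WithLp.toLp 2 fun g => v (h⁻¹ * g)

lemma LTr_apply (h : Alt n) (v : FA n) (g : Alt n) : LTr h v g = v (h⁻¹ * g) := rfl

lemma TL_LTr (x : Fin k → Alt n) (h : Alt n) (v : FA n) :
    TL (RR n) x (LTr h v) = LTr h (TL (RR n) x v) := by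
  rw [WORDS.TL_apply, WORDS.TL_apply]
  ext g
  rw [LTr_apply]
  simp only [PiLp.smul_apply, PiLp.add_apply, WithLp.ofLp_sum, Finset.sum_apply, RR_apply,
    LTr_apply, mul_assoc]

lemma TL_pow_LTr (x : Fin k → Alt n) (h : Alt n) (L : ℕ) (v : FA n) :
    (TL (RR n) x ^ L) (LTr h v) = LTr h ((TL (RR n) x ^ L) v) := by
  induction L with
  | zero => simp
  | succ L ih => rw [pow_succ', Module.End.mul_apply, Module.End.mul_apply, ih, TL_LTr]

lemma inner_LTr (h : Alt n) (u v : FA n) : ⟪LTr h u, LTr h v⟫_ℂ = ⟪u, v⟫_ℂ := by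
  rw [PiLp.inner_apply, PiLp.inner_apply]
  exact Equiv.sum_comp (Equiv.mulLeft h⁻¹) fun g => ⟪u g, v g⟫_ℂ

/-- decay on class functions -/
theorem class_decay (hk : 1 ≤ k) {ε η : ℝ} (hε1 : ε ≤ 1) (x : Fin k → Alt n)
    (hx : IrrFew ε η x) (L : ℕ) (f : FA n)
    (hcl : ∀ g h : Alt n, f (g * h) = f (h * g)) (h0 : ∑ g, f g = 0) :
    ‖(TL (RR n) x ^ L) f‖ ^ 2 ≤ (η + (1 - ε / 2) ^ (2 * L)) * ‖f‖ ^ 2 := by
  have hTs : (TL (RR n) x).IsSymmetric := TL_symm (RR n) x
  have h1 := cavg_le hk hε1 x hx L f h0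
  have h2 : ⟪cavg (RR n) (TL (RR n) x ^ (2 * L)) f, f⟫_ℂ =
      (Fintype.card (Alt n) : ℂ) * ⟪(TL (RR n) x ^ (2 * L)) f, f⟫_ℂ := by
    unfold cavg
    rw [LinearMap.sum_apply, sum_inner]
    have h3 : ∀ h : Alt n, ⟪(op (RR n) h * TL (RR n) x ^ (2 * L) * op (RR n) h⁻¹) f, f⟫_ℂ =
        ⟪(TL (RR n) x ^ (2 * L)) f, f⟫_ℂ := by
      intro h
      have h4 : op (RR n) h⁻¹ f = LTr h f := by
        ext g
        rw [LTr_apply, ← hcl]
        exact RR_apply _ _ _
      rw [Module.End.mul_apply, Module.End.mul_apply, inner_op, h4, TL_pow_LTr, inner_LTr]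
    rw [Finset.sum_congr rfl fun h _ => h3 h, Finset.sum_const, Finset.card_univ, nsmul_eq_mul]
  have h3 : ‖(TL (RR n) x ^ L) f‖ ^ 2 = (⟪(TL (RR n) x ^ (2 * L)) f, f⟫_ℂ).re := by
    have h4 := (hTs.pow L) ((TL (RR n) x ^ L) f) f
    rw [two_mul, pow_add, Module.End.mul_apply, h4]
    rw [inner_self_eq_norm_sq_to_K]
    norm_cast
  have hN : (0 : ℝ) < Fintype.card (Alt n) := by exact_mod_cast Fintype.card_pos
  rw [h2] at h1
  have h5 : ((Fintype.card (Alt n) : ℂ) * ⟪(TL (RR n) x ^ (2 * L)) f, f⟫_ℂ).re =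
      (Fintype.card (Alt n) : ℝ) * (⟪(TL (RR n) x ^ (2 * L)) f, f⟫_ℂ).re := by
    rw [← Complex.ofReal_natCast, Complex.re_ofReal_mul]
  rw [h5, ← h3, mul_assoc] at h1
  exact le_of_mul_le_mul_left h1 hN

/-- covering: few `g` have no word `w` of length `L` with `g w` in the given set of positive
density which is invariant under conjugation -/
theorem cover (hk : 1 ≤ k) {ε η : ℝ} (hη : 0 ≤ η) (hε1 : ε ≤ 1) (x : Fin k → Alt n)
    (hx : IrrFew ε η x) (L : ℕ) (E : Finset (Alt n))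
    (hE : ∀ g h : Alt n, g * h ∈ E ↔ h * g ∈ E) (hE0 : 0 < #E) [DecidablePred fun g : Alt n =>
      ∀ w : Fin L → Fin k × Fin 4, g * wd x w ∉ E] :
    (#(univ.filter fun g : Alt n => ∀ w : Fin L → Fin k × Fin 4, g * wd x w ∉ E) : ℝ) ≤
      (η + (1 - ε / 2) ^ (2 * L)) * (Fintype.card (Alt n) : ℝ) ^ 2 / #E := by
  classical
  have hk' : (0 : ℝ) < k := by exact_mod_cast hk
  have hkc : (k : ℂ) ≠ 0 := by
    have : k ≠ 0 := by omega
    exact_mod_cast this
  have hN : (0 : ℝ) < Fintype.card (Alt n) := by exact_mod_cast Fintype.card_pos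
  have he : (0 : ℝ) < #E := by exact_mod_cast hE0
  set p : ℝ := (#E : ℝ) / Fintype.card (Alt n) with hp
  have hpN : p * Fintype.card (Alt n) = #E := by rw [hp]; field_simp
  have hp0 : 0 < p := by rw [hp]; positivity
  set f : FA n := WithLp.toLp 2 fun g => ((if g ∈ E then (1 : ℂ) else 0) - (p : ℂ)) with hf
  have hfa : ∀ g, f g = (if g ∈ E then (1 : ℂ) else 0) - (p : ℂ) := fun g => rfl
  have hcl : ∀ g h : Alt n, f (g * h) = f (h * g) := by
    intro g h
    rw [hfa, hfa]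
    simp only [hE g h]
  have h0 : ∑ g, f g = 0 := by
    simp only [hfa]
    rw [Finset.sum_sub_distrib, Finset.sum_ite_mem, Finset.univ_inter, Finset.sum_const,
      Finset.sum_const, Finset.card_univ, nsmul_eq_mul, nsmul_eq_mul, mul_one, sub_eq_zero]
    have h1 : ((#E : ℝ) : ℂ) = ((p * Fintype.card (Alt n) : ℝ) : ℂ) := by rw [hpN]
    push_cast at h1
    rw [h1, mul_comm]
  have hdec := class_decay hk hε1 x hx L f hcl h0
  have hnorm : ‖f‖ ^ 2 ≤ #E := by
    rw [EuclideanSpace.norm_sq_eq]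
    have h1 : ∀ g, ‖f g‖ ^ 2 = (if g ∈ E then (1 - 2 * p) else 0) + p ^ 2 := by
      intro g
      rw [hfa]
      split_ifs with h
      · have h2 : (1 : ℂ) - (p : ℂ) = ((1 - p : ℝ) : ℂ) := by push_cast; rfl
        rw [h2, Complex.norm_real, Real.norm_eq_abs, sq_abs]
        ring
      · have h2 : (0 : ℂ) - (p : ℂ) = ((-p : ℝ) : ℂ) := by push_cast; ring
        rw [h2, Complex.norm_real, Real.norm_eq_abs, sq_abs]
        ring
    rw [Finset.sum_congr rfl fun g _ => h1 g, Finset.sum_add_distrib, Finset.sum_ite_mem,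
      Finset.univ_inter, Finset.sum_const, Finset.sum_const, Finset.card_univ, nsmul_eq_mul,
      nsmul_eq_mul]
    have h2 : (Fintype.card (Alt n) : ℝ) * p ^ 2 = #E * p := by rw [← hpN]; ring
    rw [h2]
    nlinarith [mul_pos he hp0]
  set Bad := univ.filter fun g : Alt n => ∀ w : Fin L → Fin k × Fin 4, g * wd x w ∉ E with hBad
  have hval : ∀ g ∈ Bad, ‖((TL (RR n) x ^ L) f) g‖ ^ 2 = p ^ 2 := by
    intro g hg
    rw [hBad, mem_filter] at hg
    have h1 : ((TL (RR n) x ^ L) f) g = -(p : ℂ) := by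
      rw [TL_pow (RR n) hk]
      have h2 : (((1 / (4 * (k : ℂ))) ^ L) •
          ∑ w : Fin L → Fin k × Fin 4, op (RR n) (wd x w)) f g =
          ((1 / (4 * (k : ℂ))) ^ L) * ∑ w : Fin L → Fin k × Fin 4, f (g * wd x w) := by
        rw [LinearMap.smul_apply, LinearMap.sum_apply, PiLp.smul_apply, WithLp.ofLp_sum,
          Finset.sum_apply, smul_eq_mul]
        congr 1
      rw [h2]
      have h3 : ∀ w : Fin L → Fin k × Fin 4, f (g * wd x w) = -(p : ℂ) := by
        intro w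
        rw [hfa, if_neg (hg.2 w), zero_sub]
      rw [Finset.sum_congr rfl fun w _ => h3 w, Finset.sum_const, Finset.card_univ, nsmul_eq_mul,
        Fintype.card_fun, Fintype.card_prod, Fintype.card_fin, Fintype.card_fin, Fintype.card_fin]
      push_cast
      rw [← mul_assoc, ← mul_pow]
      have h4 : 1 / (4 * (k : ℂ)) * ((k : ℂ) * 4) = 1 := by field_simp
      rw [h4, one_pow, one_mul]
    rw [h1, norm_neg, Complex.norm_real, Real.norm_eq_abs, sq_abs]
  have h1 : #Bad * p ^ 2 ≤ ‖(TL (RR n) x ^ L) f‖ ^ 2 := by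
    rw [EuclideanSpace.norm_sq_eq]
    calc (#Bad : ℝ) * p ^ 2 = ∑ g ∈ Bad, ‖((TL (RR n) x ^ L) f) g‖ ^ 2 := by
          rw [Finset.sum_congr rfl hval, Finset.sum_const, nsmul_eq_mul]
      _ ≤ _ := Finset.sum_le_univ_sum_of_nonneg fun g => by positivity
  have hc0 : 0 ≤ (η + (1 - ε / 2) ^ (2 * L)) :=
    add_nonneg hη (pow_nonneg (by linarith) _)
  have h2 : #Bad * p ^ 2 ≤ (η + (1 - ε / 2) ^ (2 * L)) * #E :=
    h1.trans (hdec.trans (mul_le_mul_of_nonneg_left hnorm hc0))
  rw [le_div_iff₀ he]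
  have h3 : (#Bad : ℝ) * #E * #E = #Bad * p ^ 2 * (Fintype.card (Alt n) : ℝ) ^ 2 := by
    rw [← hpN]
    ring
  have h4 : (#Bad : ℝ) * #E * #E ≤
      (η + (1 - ε / 2) ^ (2 * L)) * (Fintype.card (Alt n) : ℝ) ^ 2 * #E := by
    rw [h3]
    have := mul_le_mul_of_nonneg_right h2 (sq_nonneg (Fintype.card (Alt n) : ℝ))
    linarith
  exact le_of_mul_le_mul_right h4 he

lemma PB_list {x : Fin k → Alt n} (l : List (Alt n))
    (h : ∀ y ∈ l, ((y : Alt n) : Equiv.Perm (Fin n)) ∈ PB x 1) :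
    ((l.prod : Alt n) : Equiv.Perm (Fin n)) ∈ PB x l.length := by
  induction l with
  | nil => exact PB.one _
  | cons a l ih =>
    rw [List.prod_cons, Subgroup.coe_mul, List.length_cons, add_comm]
    exact PB.mul (h a (by simp)) (ih fun y hy => h y (by simp [hy]))

lemma PB_wd (x : Fin k → Alt n) {L : ℕ} (w : Fin L → Fin k × Fin 4) :
    ((wd x w : Alt n) : Equiv.Perm (Fin n)) ∈ PB x L := by
  have h := PB_list (x := x) (List.ofFn fun t => lt x (w t)) (by
    intro y hy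
    rw [List.mem_ofFn] at hy
    obtain ⟨t, rfl⟩ := hy
    unfold lt
    split_ifs
    · exact PB.gen _
    · rw [Subgroup.coe_inv]
      exact PB.inv (PB.gen _)
    · exact PB.one 1)
  rw [List.length_ofFn] at h
  exact h

end cls

end

end RD516
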