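import Pool.Agent.U516.RD.Inv
import Pool.Agent.H14R2.RC.Defs

/-!
Mixing of the lazy walk on tuples from a spectral gap, pointwise.
-/

namespace RD516
open Finset Equiv

noncomputable section

section abs
variable {Ω : Type*} [Fintype Ω] {k : ℕ} (s : Fin k → Perm Ω)

/-- average over the `2k` steps -/
def av (f : Ω → ℝ) (a : Ω) : ℝ := (∑ i, (f (s i a) + f ((s i)⁻¹ a))) / (2 * k)

/-- the lazy walk -/
def lz (f : Ω → ℝ) (a : Ω) : ℝ := (f a + av s f a) / 2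

lemma sum_av (hk : 1 ≤ k) (f : Ω → ℝ) : ∑ a, av s f a = ∑ a, f a := by
  have hk' : (0 : ℝ) < k := by exact_mod_cast hk
  unfold av
  rw [← sum_div, sum_comm]
  have h1 : ∀ i : Fin k, ∑ a, (f (s i a) + f ((s i)⁻¹ a)) = 2 * ∑ a, f a := by
    intro i
    rw [sum_add_distrib, Equiv.sum_comp (s i) f, Equiv.sum_comp ((s i)⁻¹) f]
    ring
  rw [sum_congr rfl fun i _ => h1 i, sum_const, card_univ, Fintype.card_fin, nsmul_eq_mul]
  field_simp

lemma sum_av_sq_le (hk : 1 ≤ k) (f : Ω → ℝ) : ∑ a, av s f a ^ 2 ≤ ∑ a, f a ^ 2 := by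
  have hk' : (0 : ℝ) < k := by exact_mod_cast hk
  have h1 : ∀ a, av s f a ^ 2 ≤ av s (fun b => f b ^ 2) a := by
    intro a
    unfold av
    rw [div_pow, div_le_div_iff₀ (by positivity) (by positivity)]
    have h2 : (∑ i, (f (s i a) + f ((s i)⁻¹ a))) ^ 2 ≤
        k * ∑ i, (f (s i a) + f ((s i)⁻¹ a)) ^ 2 := by
      have := sq_sum_le_card_mul_sum_sq (s := (univ : Finset (Fin k)))
        (f := fun i => f (s i a) + f ((s i)⁻¹ a))
      rwa [card_univ, Fintype.card_fin] at this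
    have h3 : ∑ i, (f (s i a) + f ((s i)⁻¹ a)) ^ 2 ≤
        2 * ∑ i, (f (s i a) ^ 2 + f ((s i)⁻¹ a) ^ 2) := by
      rw [mul_sum]
      exact sum_le_sum fun i _ => by nlinarith [sq_nonneg (f (s i a) - f ((s i)⁻¹ a))]
    have h4 : (∑ i, (f (s i a) + f ((s i)⁻¹ a))) ^ 2 ≤
        k * (2 * ∑ i, (f (s i a) ^ 2 + f ((s i)⁻¹ a) ^ 2)) :=
      h2.trans (mul_le_mul_of_nonneg_left h3 hk'.le)
    nlinarith [mul_le_mul_of_nonneg_right h4 (by positivity : (0 : ℝ) ≤ 2 * k)]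
  calc ∑ a, av s f a ^ 2 ≤ ∑ a, av s (fun b => f b ^ 2) a := sum_le_sum fun a _ => h1 a
    _ = ∑ a, f a ^ 2 := sum_av s hk _

lemma sum_lz (hk : 1 ≤ k) (f : Ω → ℝ) : ∑ a, lz s f a = ∑ a, f a := by
  unfold lz
  rw [← sum_div, sum_add_distrib, sum_av s hk]
  ring

/-- the gap hypothesis for `s` -/
def HasGap (ε : ℝ) : Prop :=
  ∀ f : Ω → ℝ, ∑ a, f a = 0 → ∑ a, f a * av s f a ≤ (1 - ε) * ∑ a, f a ^ 2

lemma lz_sq_le (hk : 1 ≤ k) {ε : ℝ} (hg : HasGap s ε) (f : Ω → ℝ) (h0 : ∑ a, f a = 0) :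
    ∑ a, lz s f a ^ 2 ≤ (1 - ε / 2) * ∑ a, f a ^ 2 := by
  have h1 := hg f h0
  have h2 := sum_av_sq_le s hk f
  have h3 : ∑ a, lz s f a ^ 2 =
      (∑ a, f a ^ 2 + 2 * ∑ a, f a * av s f a + ∑ a, av s f a ^ 2) / 4 := by
    unfold lz
    rw [mul_sum, ← sum_add_distrib, ← sum_add_distrib, sum_div]
    exact sum_congr rfl fun a _ => by ring
  rw [h3]
  linarith

lemma iter_sum (hk : 1 ≤ k) (f : Ω → ℝ) (L : ℕ) : ∑ a, (lz s)^[L] f a = ∑ a, f a := by
  induction L with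
  | zero => rfl
  | succ L ih => rw [Function.iterate_succ_apply', sum_lz s hk, ih]

lemma iter_sq_le (hk : 1 ≤ k) {ε : ℝ} (hε : ε ≤ 2) (hg : HasGap s ε) (f : Ω → ℝ)
    (h0 : ∑ a, f a = 0) (L : ℕ) :
    ∑ a, (lz s)^[L] f a ^ 2 ≤ (1 - ε / 2) ^ L * ∑ a, f a ^ 2 := by
  induction L with
  | zero => simp
  | succ L ih =>
    rw [Function.iterate_succ_apply']
    refine (lz_sq_le s hk hg _ (by rw [iter_sum s hk, h0])).trans ?_
    rw [pow_succ, mul_comm ((1 - ε / 2) ^ L), mul_assoc]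
    exact mul_le_mul_of_nonneg_left ih (by linarith)

omit [Fintype Ω] in
lemma lz_sub_const (hk : 1 ≤ k) (f : Ω → ℝ) (c : ℝ) :
    lz s (fun a => f a - c) = fun a => lz s f a - c := by
  have hk' : (0 : ℝ) < k := by exact_mod_cast hk
  funext a
  unfold lz av
  have : ∑ i, (f (s i a) - c + (f ((s i)⁻¹ a) - c)) =
      ∑ i, (f (s i a) + f ((s i)⁻¹ a)) - k * (2 * c) := by
    have h1 : ∀ i : Fin k, f (s i a) - c + (f ((s i)⁻¹ a) - c) =
        (f (s i a) + f ((s i)⁻¹ a)) - 2 * c := fun i => by ring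
    rw [sum_congr rfl fun i _ => h1 i, sum_sub_distrib, sum_const, card_univ, Fintype.card_fin,
      nsmul_eq_mul]
  rw [this]
  field_simp
  ring

omit [Fintype Ω] in
lemma iter_sub_const (hk : 1 ≤ k) (f : Ω → ℝ) (c : ℝ) (L : ℕ) :
    (lz s)^[L] (fun a => f a - c) = fun a => (lz s)^[L] f a - c := by
  induction L with
  | zero => rfl
  | succ L ih => rw [Function.iterate_succ_apply', ih, lz_sub_const s hk,
      Function.iterate_succ_apply']

lemma point_bound [Nonempty Ω] (hk : 1 ≤ k) {ε : ℝ} (hε : ε ≤ 2) (hg : HasGap s ε) (f : Ω → ℝ)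
    (L : ℕ) (a : Ω) :
    ((lz s)^[L] f a - (∑ b, f b) / Fintype.card Ω) ^ 2 ≤ (1 - ε / 2) ^ L * ∑ b, f b ^ 2 := by
  have hN : (0 : ℝ) < Fintype.card Ω := by exact_mod_cast Fintype.card_pos
  set c : ℝ := (∑ b, f b) / Fintype.card Ω with hc
  have hcN : c * Fintype.card Ω = ∑ b, f b := by rw [hc]; field_simp
  have h0 : ∑ b, (f b - c) = 0 := by
    rw [sum_sub_distrib, sum_const, card_univ, nsmul_eq_mul, mul_comm, hcN, sub_self]
  have h1 := iter_sq_le s hk hε hg (fun b => f b - c) h0 L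
  have h2 : ∑ b, (f b - c) ^ 2 ≤ ∑ b, f b ^ 2 := by
    have h3 : ∑ b, (f b - c) ^ 2 = ∑ b, f b ^ 2 - 2 * c * ∑ b, f b + Fintype.card Ω * c ^ 2 := by
      have h4 : ∀ b, (f b - c) ^ 2 = f b ^ 2 - 2 * c * f b + c ^ 2 := fun b => by ring
      rw [sum_congr rfl fun b _ => h4 b, sum_add_distrib, sum_sub_distrib, ← mul_sum, sum_const,
        card_univ, nsmul_eq_mul]
    rw [h3, ← hcN]
    nlinarith [mul_nonneg hN.le (sq_nonneg c)]
  have h5 : ((lz s)^[L] f a - c) ^ 2 ≤ ∑ b, (lz s)^[L] (fun b => f b - c) b ^ 2 := by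
    rw [iter_sub_const s hk]
    exact single_le_sum (f := fun b => ((lz s)^[L] f b - c) ^ 2) (fun b _ => sq_nonneg _)
      (mem_univ a)
  refine h5.trans (h1.trans (mul_le_mul_of_nonneg_left h2 ?_))
  exact pow_nonneg (by linarith) _

end abs

variable {n k : ℕ} {x : Fin k → alternatingGroup (Fin n)}

/-- the lazy averaging operator on functions of a permutation -/
def RL (x : Fin k → alternatingGroup (Fin n)) (F : Perm (Fin n) → ℝ) (g : Perm (Fin n)) : ℝ :=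
  (F g + (∑ i, (F ((x i : Perm (Fin n)) * g) + F ((x i : Perm (Fin n))⁻¹ * g))) / (2 * k)) / 2

lemma RL_add (F H : Perm (Fin n) → ℝ) : RL x (fun g => F g + H g) = fun g => RL x F g + RL x H g := by
  funext g
  unfold RL
  have : ∑ i, (F ((x i : Perm (Fin n)) * g) + H ((x i : Perm (Fin n)) * g) +
      (F ((x i : Perm (Fin n))⁻¹ * g) + H ((x i : Perm (Fin n))⁻¹ * g))) =
      ∑ i, (F ((x i : Perm (Fin n)) * g) + F ((x i : Perm (Fin n))⁻¹ * g)) +
      ∑ i, (H ((x i : Perm (Fin n)) * g) + H ((x i : Perm (Fin n))⁻¹ * g)) := by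
    rw [← sum_add_distrib]
    exact sum_congr rfl fun i _ => by ring
  rw [this]
  ring

lemma RL_smul (c : ℝ) (F : Perm (Fin n) → ℝ) : RL x (fun g => c * F g) = fun g => c * RL x F g := by
  funext g
  unfold RL
  have : ∑ i, (c * F ((x i : Perm (Fin n)) * g) + c * F ((x i : Perm (Fin n))⁻¹ * g)) =
      c * ∑ i, (F ((x i : Perm (Fin n)) * g) + F ((x i : Perm (Fin n))⁻¹ * g)) := by
    rw [mul_sum]
    exact sum_congr rfl fun i _ => by ring
  rw [this]
  ring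

lemma RLi_add (F H : Perm (Fin n) → ℝ) (L : ℕ) :
    (RL x)^[L] (fun g => F g + H g) = fun g => (RL x)^[L] F g + (RL x)^[L] H g := by
  induction L with
  | zero => rfl
  | succ L ih =>
    rw [Function.iterate_succ_apply', ih, RL_add, Function.iterate_succ_apply',
      Function.iterate_succ_apply']

lemma RLi_smul (c : ℝ) (F : Perm (Fin n) → ℝ) (L : ℕ) :
    (RL x)^[L] (fun g => c * F g) = fun g => c * (RL x)^[L] F g := by
  induction L with
  | zero => rfl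
  | succ L ih =>
    rw [Function.iterate_succ_apply', ih, RL_smul, Function.iterate_succ_apply']

lemma RLi_sum {ι : Type*} (S : Finset ι) (F : ι → Perm (Fin n) → ℝ) (L : ℕ) :
    (RL x)^[L] (fun g => ∑ c ∈ S, F c g) = fun g => ∑ c ∈ S, (RL x)^[L] (F c) g := by
  classical
  induction S using Finset.induction_on with
  | empty =>
    simp only [sum_empty]
    have h := RLi_smul (x := x) 0 (fun _ => 0) L
    simpa using h
  | insert a S ha ih =>
    simp only [sum_insert ha]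
    rw [RLi_add, ih]

lemma RL_pos {F : Perm (Fin n) → ℝ} {g : Perm (Fin n)} (h : 0 < RL x F g) :
    ∃ u ∈ PB x 1, 0 < F (u * g) := by
  by_contra hcon
  push Not at hcon
  have h1 : F g ≤ 0 := by
    have := hcon 1 (PB.one 1)
    rwa [one_mul] at this
  have h2 : ∀ i, F ((x i : Perm (Fin n)) * g) ≤ 0 := fun i => hcon _ (PB.gen i)
  have h3 : ∀ i, F ((x i : Perm (Fin n))⁻¹ * g) ≤ 0 := fun i => hcon _ (PB.inv (PB.gen i))
  have h4 : ∑ i, (F ((x i : Perm (Fin n)) * g) + F ((x i : Perm (Fin n))⁻¹ * g)) ≤ 0 :=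
    sum_nonpos fun i _ => by linarith [h2 i, h3 i]
  have h5 : (∑ i, (F ((x i : Perm (Fin n)) * g) + F ((x i : Perm (Fin n))⁻¹ * g))) / (2 * k) ≤ 0 :=
    div_nonpos_of_nonpos_of_nonneg h4 (by positivity)
  unfold RL at h
  linarith

lemma RLi_pos {F : Perm (Fin n) → ℝ} (L : ℕ) : ∀ {g : Perm (Fin n)}, 0 < (RL x)^[L] F g →
    ∃ u ∈ PB x L, 0 < F (u * g) := by
  induction L with
  | zero => intro g h; exact ⟨1, PB.one 0, by simpa using h⟩
  | succ L ih =>
    intro g h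
    rw [Function.iterate_succ_apply'] at h
    obtain ⟨u, hu, h1⟩ := RL_pos h
    obtain ⟨v, hv, h2⟩ := ih h1
    exact ⟨v * u, PB.mul hv hu, by rwa [mul_assoc]⟩

/-- the walk on tuples -/
def tw (x : Fin k → alternatingGroup (Fin n)) (r : ℕ) : Fin k → Perm (RC14.Tup r n) :=
  fun i => RC14.mvE (x i : Perm (Fin n))

lemma tw_inv (r : ℕ) (i : Fin k) (a : RC14.Tup r n) :
    (tw x r i)⁻¹ a = RC14.mv (x i : Perm (Fin n))⁻¹ a := rfl

lemma RLi_tuple {r : ℕ} (φ : RC14.Tup r n → ℝ) (a : RC14.Tup r n) (L : ℕ) :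
    (RL x)^[L] (fun g => φ (RC14.mv g a)) = fun g => (lz (tw x r))^[L] φ (RC14.mv g a) := by
  induction L with
  | zero => rfl
  | succ L ih =>
    rw [Function.iterate_succ_apply', ih, Function.iterate_succ_apply']
    funext g
    unfold RL lz av
    congr 3

/-- gap on `r`-tuples -/
def TGap (x : Fin k → alternatingGroup (Fin n)) (ε : ℝ) (r : ℕ) : Prop := HasGap (tw x r) ε

lemma tuple_point {r : ℕ} [Nonempty (RC14.Tup r n)] (hk : 1 ≤ k) {ε : ℝ} (hε : ε ≤ 2)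
    (hg : TGap x ε r) (φ : RC14.Tup r n → ℝ) (a : RC14.Tup r n) (L : ℕ) :
    ((RL x)^[L] (fun g => φ (RC14.mv g a)) 1 -
      (∑ b, φ b) / Fintype.card (RC14.Tup r n)) ^ 2 ≤ (1 - ε / 2) ^ L * ∑ b, φ b ^ 2 := by
  rw [RLi_tuple]
  change ((lz (tw x r))^[L] φ (RC14.mv 1 a) - _) ^ 2 ≤ _
  rw [RC14.mv_one]
  exact point_bound (tw x r) hk hε hg φ L a

lemma card_tup_le (r : ℕ) (n : ℕ) : Fintype.card (RC14.Tup r n) ≤ n ^ r := by
  rw [Fintype.card_embedding_eq, Fintype.card_fin, Fintype.card_fin]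
  exact Nat.descFactorial_le_pow n r

/-- transitivity on tuples by short words -/
lemma trans_of_gap (hk : 1 ≤ k) {ε : ℝ} (hε : ε ≤ 2) {M T : ℕ} (hn : 1 ≤ n)
    (hg : ∀ r ≤ M, TGap x ε r) (hT : (1 - ε / 2) ^ T * ((n : ℝ) ^ M) ^ 2 < 1) : Trans x M T := by
  classical
  intro r hr a b
  have : Nonempty (RC14.Tup r n) := ⟨a⟩
  have hN : (0 : ℝ) < Fintype.card (RC14.Tup r n) := by exact_mod_cast Fintype.card_pos
  have h1 := tuple_point hk hε (hg r hr) (fun c => if c = b then 1 else 0) a T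
  have h2 : ∑ c : RC14.Tup r n, (if c = b then (1 : ℝ) else 0) = 1 := by simp
  have h3 : ∑ c : RC14.Tup r n, (if c = b then (1 : ℝ) else 0) ^ 2 = 1 := by simp
  rw [h2, h3, mul_one] at h1
  have h4 : (Fintype.card (RC14.Tup r n) : ℝ) ≤ (n : ℝ) ^ M := by
    have h5 : (Fintype.card (RC14.Tup r n) : ℝ) ≤ (n : ℝ) ^ r := by
      exact_mod_cast card_tup_le r n
    exact h5.trans (pow_le_pow_right₀ (by exact_mod_cast hn) hr)
  have hpos : 0 < (RL x)^[T] (fun g => if RC14.mv g a = b then (1 : ℝ) else 0) 1 := by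
    by_contra hcon
    push Not at hcon
    have h6 : (1 / (Fintype.card (RC14.Tup r n) : ℝ)) ^ 2 ≤ (1 - ε / 2) ^ T := by
      refine le_trans ?_ h1
      have h7 : 0 < 1 / (Fintype.card (RC14.Tup r n) : ℝ) := by positivity
      nlinarith
    have h8 : (0 : ℝ) ≤ (1 - ε / 2) ^ T := pow_nonneg (by linarith) _
    have h9 : (1 / (Fintype.card (RC14.Tup r n) : ℝ)) ^ 2 * ((n : ℝ) ^ M) ^ 2 < 1 :=
      lt_of_le_of_lt (mul_le_mul_of_nonneg_right h6 (by positivity)) hT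
    have h10 : 1 ≤ (1 / (Fintype.card (RC14.Tup r n) : ℝ)) ^ 2 * ((n : ℝ) ^ M) ^ 2 := by
      rw [← mul_pow]
      apply one_le_pow₀
      rw [div_mul_eq_mul_div, one_mul, le_div_iff₀ hN, one_mul]
      exact h4
    linarith
  obtain ⟨g, hg1, hg2⟩ := RLi_pos T hpos
  refine ⟨g, hg1, ?_⟩
  rw [mul_one] at hg2
  by_cases h : RC14.mv g a = b
  · intro i
    rw [← h]
    rfl
  · simp [h] at hg2

end

end RD516
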