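import Pool.Agent.U516.RD.Fin

/-!
Decay of the lazy walk on functions invariant under conjugation by a subgroup.
-/

namespace RD516
open RC14 Finset Filter Topology
open scoped InnerProductSpace

noncomputable section

variable {n k : ℕ}

/-- decay on functions invariant under conjugation by `H` -/
theorem conj_decay (hk : 1 ≤ k) {ε η : ℝ} (hε1 : ε ≤ 1) (x : Fin k → Alt n)
    (hx : IrrFew ε η x) (L : ℕ) (H : Subgroup (Alt n)) (f : FA n)
    (hcl : ∀ h ∈ H, ∀ g : Alt n, f (h * g * h⁻¹) = f g) (h0 : ∑ g, f g = 0) :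
    ‖(TL (RR n) x ^ L) f‖ ^ 2 ≤ H.index * (η + (1 - ε / 2) ^ (2 * L)) * ‖f‖ ^ 2 := by
  classical
  have hTs : (TL (RR n) x).IsSymmetric := TL_symm (RR n) x
  have h1 := cavg_le hk hε1 x hx L f h0
  -- the quadratic form of the even power
  have hq : ∀ u : FA n, (⟪(TL (RR n) x ^ (2 * L)) u, u⟫_ℂ).re = ‖(TL (RR n) x ^ L) u‖ ^ 2 := by
    intro u
    have h4 := (hTs.pow L) ((TL (RR n) x ^ L) u) u
    rw [two_mul, pow_add, Module.End.mul_apply, h4]
    rw [inner_self_eq_norm_sq_to_K]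
    norm_cast
  have h2 : (⟪cavg (RR n) (TL (RR n) x ^ (2 * L)) f, f⟫_ℂ).re =
      ∑ h : Alt n, ‖(TL (RR n) x ^ L) (op (RR n) h⁻¹ f)‖ ^ 2 := by
    unfold cavg
    rw [LinearMap.sum_apply, sum_inner, Complex.re_sum]
    refine Finset.sum_congr rfl fun h _ => ?_
    rw [Module.End.mul_apply, Module.End.mul_apply, inner_op, hq]
  have h3 : ∀ h ∈ H, ‖(TL (RR n) x ^ L) (op (RR n) h⁻¹ f)‖ ^ 2 = ‖(TL (RR n) x ^ L) f‖ ^ 2 := by
    intro h hh
    have h4 : op (RR n) h⁻¹ f = LTr h f := by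
      ext g
      rw [LTr_apply]
      have h5 := hcl h hh (h⁻¹ * g)
      rw [← h5]
      have h6 : h * (h⁻¹ * g) * h⁻¹ = g * h⁻¹ := by group
      rw [h6]
      exact RR_apply _ _ _
    rw [← hq, h4, TL_pow_LTr, inner_LTr, hq]
  have h5 : (Nat.card H : ℝ) * ‖(TL (RR n) x ^ L) f‖ ^ 2 ≤
      ∑ h : Alt n, ‖(TL (RR n) x ^ L) (op (RR n) h⁻¹ f)‖ ^ 2 := by
    have e1 : ∑ h ∈ univ.filter (fun h : Alt n => h ∈ H),
        ‖(TL (RR n) x ^ L) (op (RR n) h⁻¹ f)‖ ^ 2 =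
        (Nat.card H : ℝ) * ‖(TL (RR n) x ^ L) f‖ ^ 2 := by
      rw [Finset.sum_congr rfl fun h hh => h3 h (mem_filter.1 hh).2, Finset.sum_const,
        nsmul_eq_mul]
      congr 2
      rw [Nat.card_eq_fintype_card, Fintype.card_subtype]
    rw [← e1]
    exact Finset.sum_le_sum_of_subset_of_nonneg (filter_subset _ _) fun h _ _ => by positivity
  rw [h2] at h1
  have hH : (0 : ℝ) < Nat.card H := by exact_mod_cast Nat.card_pos
  have hidx : (Nat.card H : ℝ) * H.index = Fintype.card (Alt n) := by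
    have := H.card_mul_index
    rw [Nat.card_eq_fintype_card (α := Alt n)] at this
    exact_mod_cast this
  have h6 := h5.trans h1
  rw [← hidx] at h6
  have h7 : (Nat.card H : ℝ) * ‖(TL (RR n) x ^ L) f‖ ^ 2 ≤
      (Nat.card H : ℝ) * (H.index * (η + (1 - ε / 2) ^ (2 * L)) * ‖f‖ ^ 2) := by
    refine h6.trans (le_of_eq ?_)
    ring
  exact le_of_mul_le_mul_left h7 hH

/-- one step of the lazy walk on real functions -/
def lzr {G : Type*} [Group G] {k : ℕ} (x : Fin k → G) (f : G → ℝ) (g : G) : ℝ :=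
  (f g + (∑ i, (f (g * x i) + f (g * (x i)⁻¹))) / (2 * k)) / 2

lemma TL_real (x : Fin k → Alt n) (f : Alt n → ℝ) :
    TL (RR n) x (WithLp.toLp 2 fun g => (f g : ℂ)) = WithLp.toLp 2 fun g => (lzr x f g : ℂ) := by
  rw [WORDS.TL_apply]
  ext g
  simp only [PiLp.smul_apply, PiLp.add_apply, WithLp.ofLp_sum, Finset.sum_apply, RR_apply,
    smul_eq_mul]
  unfold lzr
  push_cast
  rw [one_div, one_div, div_eq_inv_mul, div_eq_inv_mul]

lemma TL_pow_real (x : Fin k → Alt n) (f : Alt n → ℝ) (t : ℕ) :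
    (TL (RR n) x ^ t) (WithLp.toLp 2 fun g => (f g : ℂ)) =
      WithLp.toLp 2 fun g => ((lzr x)^[t] f g : ℂ) := by
  induction t with
  | zero => rfl
  | succ t ih => rw [pow_succ', Module.End.mul_apply, ih, TL_real, Function.iterate_succ_apply']

lemma norm_real (f : Alt n → ℝ) :
    ‖(WithLp.toLp 2 fun g => (f g : ℂ) : FA n)‖ ^ 2 = ∑ g, f g ^ 2 := by
  rw [EuclideanSpace.norm_sq_eq]
  refine Finset.sum_congr rfl fun g _ => ?_
  change ‖((f g : ℝ) : ℂ)‖ ^ 2 = _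
  rw [Complex.norm_real, Real.norm_eq_abs, sq_abs]

theorem conj_decay_real (hk : 1 ≤ k) {ε η : ℝ} (hε1 : ε ≤ 1) (x : Fin k → Alt n)
    (hx : IrrFew ε η x) (t : ℕ) (H : Subgroup (Alt n)) (f : Alt n → ℝ)
    (hcl : ∀ h ∈ H, ∀ g : Alt n, f (h * g * h⁻¹) = f g) (h0 : ∑ g, f g = 0) :
    ∑ g, ((lzr x)^[t] f g) ^ 2 ≤ H.index * (η + (1 - ε / 2) ^ (2 * t)) * ∑ g, f g ^ 2 := by
  have h1 := conj_decay hk hε1 x hx t H (WithLp.toLp 2 fun g => (f g : ℂ))
    (fun h hh g => by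
      change ((f (h * g * h⁻¹) : ℝ) : ℂ) = ((f g : ℝ) : ℂ)
      rw [hcl h hh g])
    (by
      change ∑ g, ((f g : ℝ) : ℂ) = 0
      rw [← Complex.ofReal_sum, h0, Complex.ofReal_zero])
  rw [TL_pow_real, norm_real, norm_real] at h1
  exact h1

end

end RD516
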