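import Pool.Agent.U516.RD.Red

/-!
The deterministic part of the diameter bound.
-/

namespace RD516
open Finset Equiv

noncomputable section

theorem det {n k : ℕ} (hk : 1 ≤ k) {x : Fin k → alternatingGroup (Fin n)} {ε : ℝ} (hε : ε ≤ 2)
    {L M : ℕ} (hn : 400 ≤ n) (hg : ∀ r ≤ M, TGap x ε r) (hM2 : 2 ≤ M)
    (hL : (1 - ε / 2) ^ L * (n : ℝ) ^ 2 ≤ 1 / (16 * (n : ℝ) ^ 2))
    (hT : (1 - ε / 2) ^ n * ((n : ℝ) ^ M) ^ 2 < 1)
    (h48 : 48 * n ≤ M ^ 2) (h2M : 2 * M ≤ n)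
    {g : Perm (Fin n)} (hgw : g ∈ PB x (1 + L))
    (hgp : ∃ m ≤ n, n ≤ 16 * #(g ^ m).support ∧ 8 * #(g ^ m).support ≤ n) :
    ∃ ℓ s : ℕ, ℓ * M ^ 5 ≤ 4 * ((n * (1 + L) + 2 * L) * n ^ 5) ∧ M ^ 2 ≤ 4 * n * s ∧ 12 ≤ s ∧
      ∀ σ : Perm (Fin n), Perm.sign σ = 1 →
        σ ∈ PB x (2 * ((2 * ℓ + 4 * n) * (n / (4 * (s / 6)) + 2))) := by
  obtain ⟨m, hm, h1, h2⟩ := hgp
  have ht : g ^ m ∈ PB x (n * (1 + L)) :=
    PB.mono (Nat.mul_le_mul_right _ hm) (PB.pow hgw m)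
  have hlow : M ^ 2 ≤ 4 * n * #(g ^ m).support := by
    have e1 : (2 * M) ^ 2 ≤ n ^ 2 := Nat.pow_le_pow_left h2M 2
    have e2 : n * n ≤ n * (16 * #(g ^ m).support) := Nat.mul_le_mul_left _ h1
    nlinarith
  obtain ⟨u, ℓ, hu, hu1, hu2, hu3⟩ := reduce hk hε (hg 2 hM2) (M := M) hL (by omega) (by omega)
    #(g ^ m).support (n * (1 + L)) (g ^ m) ht rfl h2 hlow
  have hs12 : 12 ≤ #u.support := by
    have h3 : 48 * n ≤ 4 * n * #u.support := h48.trans hu2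
    have h4 : n * 48 ≤ n * (4 * #u.support) := by
      calc n * 48 = 48 * n := by ring
        _ ≤ 4 * n * #u.support := h3
        _ = n * (4 * #u.support) := by ring
    have h5 := Nat.le_of_mul_le_mul_left h4 (by omega)
    omega
  have htr : Trans x M n := trans_of_gap hk hε (by omega) hg hT
  refine ⟨ℓ, #u.support, ?_, hu2, hs12, fun σ hσ =>
    all_of_small (by omega) htr hu hu1 (by omega) hσ⟩
  have h3 : max #(g ^ m).support M ≤ n := max_le (by omega) (by omega)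
  calc ℓ * M ^ 5 ≤ (ℓ + 2 * L) * M ^ 5 := Nat.mul_le_mul_right _ (by omega)
    _ ≤ 4 * ((n * (1 + L) + 2 * L) * (max #(g ^ m).support M) ^ 5) := hu3
    _ ≤ 4 * ((n * (1 + L) + 2 * L) * n ^ 5) :=
        Nat.mul_le_mul_left _ (Nat.mul_le_mul_left _ (Nat.pow_le_pow_left h3 5))

theorem num {n L M ℓ s : ℕ} {X : ℝ} (hX1 : 1 ≤ X) (hX : 102800 ≤ X ^ 2) (hn : 1 ≤ n)
    (hL : (L : ℝ) ≤ X) (hM : (n : ℝ) ≤ 2 * X * M)
    (h1 : ℓ * M ^ 5 ≤ 4 * ((n * (1 + L) + 2 * L) * n ^ 5)) (h2 : M ^ 2 ≤ 4 * n * s)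
    (h3 : 12 ≤ s) :
    ((2 * ((2 * ℓ + 4 * n) * (n / (4 * (s / 6)) + 2)) : ℕ) : ℝ) ≤ n * X ^ 10 := by
  have hn' : (1 : ℝ) ≤ n := by exact_mod_cast hn
  have hX0 : (0 : ℝ) < X := by linarith
  have hM0 : (0 : ℝ) < M := by
    by_contra hcon
    push Not at hcon
    have : 2 * X * (M : ℝ) ≤ 0 := mul_nonpos_of_nonneg_of_nonpos (by positivity) hcon
    linarith
  -- the length
  have hl : (ℓ : ℝ) ≤ 512 * n * X ^ 6 := by
    have e1 : (ℓ : ℝ) * M ^ 5 ≤ 4 * ((n * (1 + L) + 2 * L) * n ^ 5) := by exact_mod_cast h1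
    have e2 : (n : ℝ) ^ 5 ≤ (2 * X * M) ^ 5 := pow_le_pow_left₀ (by linarith) hM 5
    have e3 : (n : ℝ) * (1 + L) + 2 * L ≤ 4 * n * X := by
      have e4 : (n : ℝ) * L ≤ n * X := by gcongr
      have e5 : (n : ℝ) * 1 ≤ n * X := by gcongr
      have e6 : 1 * (L : ℝ) ≤ n * X := mul_le_mul hn' hL (by positivity) (by linarith)
      nlinarith
    have e4 : (ℓ : ℝ) * M ^ 5 ≤ 512 * n * X ^ 6 * M ^ 5 := by
      calc (ℓ : ℝ) * M ^ 5 ≤ 4 * ((n * (1 + L) + 2 * L) * n ^ 5) := e1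
        _ ≤ 4 * ((4 * n * X) * (2 * X * M) ^ 5) := by gcongr
        _ = 512 * n * X ^ 6 * M ^ 5 := by ring
    exact le_of_mul_le_mul_right e4 (by positivity)
  -- the number of pieces
  have hq : (n : ℝ) ≤ 16 * X ^ 2 * s := by
    have e1 : (M : ℝ) ^ 2 ≤ 4 * n * s := by exact_mod_cast h2
    have e2 : (n : ℝ) ^ 2 ≤ (2 * X * M) ^ 2 := pow_le_pow_left₀ (by linarith) hM 2
    have e3 : (n : ℝ) * n ≤ 16 * X ^ 2 * s * n := by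
      calc (n : ℝ) * n = n ^ 2 := by ring
        _ ≤ (2 * X * M) ^ 2 := e2
        _ = 4 * X ^ 2 * M ^ 2 := by ring
        _ ≤ 4 * X ^ 2 * (4 * n * s) := by gcongr
        _ = 16 * X ^ 2 * s * n := by ring
    exact le_of_mul_le_mul_right e3 (by linarith)
  have hpc : ((n / (4 * (s / 6)) : ℕ) : ℝ) ≤ 48 * X ^ 2 := by
    have hs6 : s ≤ 12 * (s / 6) := by omega
    have hs6' : (s : ℝ) ≤ 12 * ((s / 6 : ℕ) : ℝ) := by exact_mod_cast hs6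
    have hpos : (0 : ℝ) < ((s / 6 : ℕ) : ℝ) := by
      have : 0 < s / 6 := by omega
      exact_mod_cast this
    refine Nat.cast_div_le.trans ?_
    push_cast
    rw [div_le_iff₀ (by positivity)]
    calc (n : ℝ) ≤ 16 * X ^ 2 * s := hq
      _ ≤ 16 * X ^ 2 * (12 * ((s / 6 : ℕ) : ℝ)) := by gcongr
      _ = 48 * X ^ 2 * (4 * ((s / 6 : ℕ) : ℝ)) := by ring
  have hX2 : (1 : ℝ) ≤ X ^ 2 := one_le_pow₀ hX1
  have hX6 : (1 : ℝ) ≤ X ^ 6 := one_le_pow₀ hX1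
  have hsum : (2 * (ℓ : ℝ) + 4 * n) ≤ 1028 * n * X ^ 6 := by
    have : 4 * (n : ℝ) * 1 ≤ 4 * n * X ^ 6 := by gcongr
    nlinarith
  have hsum2 : ((n / (4 * (s / 6)) : ℕ) : ℝ) + 2 ≤ 50 * X ^ 2 := by linarith
  have e0 : ((2 * ((2 * ℓ + 4 * n) * (n / (4 * (s / 6)) + 2)) : ℕ) : ℝ) =
      2 * ((2 * (ℓ : ℝ) + 4 * n) * (((n / (4 * (s / 6)) : ℕ) : ℝ) + 2)) := by
    push_cast
    ring
  rw [e0]
  calc 2 * ((2 * (ℓ : ℝ) + 4 * n) * (((n / (4 * (s / 6)) : ℕ) : ℝ) + 2))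
      ≤ 2 * ((1028 * n * X ^ 6) * (50 * X ^ 2)) := by gcongr
    _ = n * X ^ 8 * 102800 := by ring
    _ ≤ n * X ^ 8 * X ^ 2 := by gcongr
    _ = n * X ^ 10 := by ring

end

end RD516
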