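import Mathlib

/-!
A large conjugacy class of `A_n` whose elements have a power of small support.
-/

namespace RD516
open Finset Equiv

lemma supp_pow {n : ℕ} {g : Perm (Fin n)} {ℓ r : ℕ} (hg : g.cycleType = {ℓ, r})
    (hr : ¬ r ∣ ℓ) : #(g ^ ℓ).support = r := by
  have h1 : ℓ ∈ g.cycleType := by rw [hg]; simp
  obtain ⟨c, τ, h2, h3, h4, h5⟩ := Perm.mem_cycleType_iff.1 h1
  have h6 : g.cycleType = {ℓ} + τ.cycleType := by
    rw [h2, h3.cycleType_mul, h4.cycleType, h5]
  rw [hg] at h6
  have h7 : ({ℓ, r} : Multiset ℕ) = {ℓ} + {r} := rfl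
  rw [h7] at h6
  have h8 : τ.cycleType = {r} := (add_left_cancel h6).symm
  have h9 : τ.IsCycle := by
    rw [← Perm.card_cycleType_eq_one, h8]
    rfl
  have h10 : #τ.support = r := by
    rw [← Perm.sum_cycleType, h8, Multiset.sum_singleton]
  have h11 : c ^ ℓ = 1 := by
    rw [← h5, ← h4.orderOf, pow_orderOf_eq_one]
  have h12 : g ^ ℓ = τ ^ ℓ := by
    rw [h2, h3.commute.mul_pow, h11, one_mul]
  rw [h12, h9.support_pow_eq_iff.2 (by rw [h9.orderOf, h10]; exact hr), h10]

/-- a length not dividing `2 a` -/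
lemma exists_length {n : ℕ} (hn : 400 ≤ n) : ∃ ℓ r : ℕ, ℓ + r = 2 * (n / 2) ∧ ¬ r ∣ ℓ ∧
    n ≤ 16 * r ∧ 8 * r ≤ n ∧ 2 ≤ r ∧ r < ℓ := by
  have key : ∃ r, (r = n / 16 + 1 ∨ r = n / 16 + 2) ∧ ¬ r ∣ 2 * (n / 2) := by
    by_contra hcon
    push Not at hcon
    have h1 := hcon _ (Or.inl rfl)
    have h2 := hcon _ (Or.inr rfl)
    have hcop : Nat.Coprime (n / 16 + 1) (n / 16 + 2) := by
      have : n / 16 + 2 = (n / 16 + 1) + 1 := rfl
      rw [this]
      simp
    have h3 := hcop.mul_dvd_of_dvd_of_dvd h1 h2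
    have h4 := Nat.le_of_dvd (by omega) h3
    have h5 : n < 16 * (n / 16 + 1) := by omega
    have h6 : (n / 16 + 1) * (n / 16 + 2) ≤ n := by omega
    set q := n / 16 + 1 with hq
    have h7 : q * (q + 1) ≤ n := h6
    nlinarith
  obtain ⟨r, hr, hnd⟩ := key
  have hr1 : n / 16 + 1 ≤ r := by omega
  have hr2 : r ≤ n / 16 + 2 := by omega
  refine ⟨2 * (n / 2) - r, r, by omega, ?_, by omega, by omega, by omega, by omega⟩
  intro h
  apply hnd
  have h1 : 2 * (n / 2) = (2 * (n / 2) - r) + r := by omega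
  rw [h1]
  exact dvd_add h dvd_rfl

/-- the class -/
theorem exists_class {n : ℕ} (hn : 400 ≤ n) : ∃ E : Finset (alternatingGroup (Fin n)),
    (∀ g h, g * h ∈ E ↔ h * g ∈ E) ∧
    2 * Fintype.card (alternatingGroup (Fin n)) ≤ n ^ 2 * #E ∧
    ∀ g ∈ E, ∃ m ≤ n, n ≤ 16 * #((g : Perm (Fin n)) ^ m).support ∧
      8 * #((g : Perm (Fin n)) ^ m).support ≤ n := by
  classical
  obtain ⟨ℓ, r, h1, h2, h3, h4, h5, h6⟩ := exists_length hn
  refine ⟨univ.filter fun g : alternatingGroup (Fin n) => g.val.cycleType = {ℓ, r}, ?_, ?_, ?_⟩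
  · intro g h
    rw [mem_filter, mem_filter]
    have h7 : ((h * g : alternatingGroup (Fin n)) : Perm (Fin n)).cycleType =
        ((g * h : alternatingGroup (Fin n)) : Perm (Fin n)).cycleType := by
      have h8 : ((h * g : alternatingGroup (Fin n)) : Perm (Fin n)) =
          (h : Perm (Fin n)) * ((g * h : alternatingGroup (Fin n)) : Perm (Fin n)) *
            (h : Perm (Fin n))⁻¹ := by
        rw [Subgroup.coe_mul, Subgroup.coe_mul]
        group
      rw [h8, Perm.cycleType_conj]
    constructor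
    · rintro ⟨-, h8⟩
      exact ⟨mem_univ _, h7.trans h8⟩
    · rintro ⟨-, h8⟩
      exact ⟨mem_univ _, h7.symm.trans h8⟩
  · have h7 := AlternatingGroup.card_of_cycleType_mul_eq (α := Fin n) {ℓ, r}
    have hsum : ({ℓ, r} : Multiset ℕ).sum = 2 * (n / 2) := by
      rw [← h1]; simp
    have hprod : ({ℓ, r} : Multiset ℕ).prod = ℓ * r := by simp
    have hcard : Multiset.card ({ℓ, r} : Multiset ℕ) = 2 := by simp
    have hcount : ∏ c ∈ ({ℓ, r} : Multiset ℕ).toFinset,
        (Multiset.count c ({ℓ, r} : Multiset ℕ)).factorial = 1 := by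
      refine prod_eq_one fun c hc => ?_
      have hnd : ({ℓ, r} : Multiset ℕ).Nodup := by
        rw [Multiset.insert_eq_cons, Multiset.nodup_cons]
        refine ⟨?_, Multiset.nodup_singleton _⟩
        rw [Multiset.mem_singleton]
        omega
      have h8 := Multiset.nodup_iff_count_le_one.1 hnd c
      have h9 : 0 < Multiset.count c ({ℓ, r} : Multiset ℕ) :=
        Multiset.count_pos.2 (Multiset.mem_toFinset.1 hc)
      have h10 : Multiset.count c ({ℓ, r} : Multiset ℕ) = 1 := by omega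
      rw [h10]
      rfl
    have hfac : (Fintype.card (Fin n) - ({ℓ, r} : Multiset ℕ).sum).factorial = 1 := by
      rw [hsum, Fintype.card_fin]
      have : n - 2 * (n / 2) ≤ 1 := by omega
      exact Nat.factorial_eq_one.2 this
    rw [hcount, hfac, hprod, one_mul, mul_one, if_pos, Fintype.card_fin] at h7
    · have h8 : 2 * Fintype.card (alternatingGroup (Fin n)) = n.factorial := by
        have hnt : Nontrivial (Fin n) := Fin.nontrivial_iff_two_le.2 (by omega)
        have := two_mul_card_alternatingGroup (α := Fin n)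
        rw [Fintype.card_perm, Fintype.card_fin] at this
        exact this
      rw [h8, ← h7, mul_comm]
      refine Nat.mul_le_mul_right _ ?_
      rw [sq]
      exact Nat.mul_le_mul (by omega) (by omega)
    · refine ⟨⟨?_, ?_⟩, ?_⟩
      · rw [hsum, Fintype.card_fin]; omega
      · intro c hc
        simp only [Multiset.insert_eq_cons, Multiset.mem_cons, Multiset.mem_singleton] at hc
        omega
      · rw [hsum, hcard]
        exact ⟨n / 2 + 1, by omega⟩
  · intro g hg
    rw [mem_filter] at hg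
    have h7 := supp_pow hg.2 h2
    refine ⟨ℓ, by omega, ?_, ?_⟩
    · rw [h7]; exact h3
    · rw [h7]; exact h4

end RD516
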