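import Pool.Agent.U516.RD.Det
import Pool.Agent.U516.RD.Cls
import Pool.Agent.U516.RD.Start
import Pool.Agent.Results.MP_75608d_al.GapAllTuples
import Pool.Agent.Results.MP_75608d_al.FewExceptionalEigenvalues

/-!
Random generators of `A_n`: the diameter is at most `n ^ (1 + δ)`.
-/

namespace RD516
open RC14 Finset Filter Topology

noncomputable section

section count
variable {G : Type} [Fintype G]

lemma card_cons (k : ℕ) (P : G → (Fin k → G) → Prop) :
    Nat.card {x : Fin (k + 1) → G // P (x 0) (Fin.tail x)} =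
      ∑ y : Fin k → G, Nat.card {g : G // P g y} := by
  classical
  rw [← Nat.card_sigma]
  refine Nat.card_congr ⟨fun x => ⟨Fin.tail x.1, ⟨x.1 0, x.2⟩⟩,
    fun p => ⟨Fin.cons p.2.1 p.1, by simpa using p.2.2⟩, ?_, ?_⟩
  · intro x
    apply Subtype.ext
    simp
  · rintro ⟨y, g, hg⟩
    rfl

lemma count_two (k : ℕ) (B : (Fin k → G) → Prop) (Q : G → (Fin k → G) → Prop) (b : ℝ)
    (hb : 0 ≤ b) (h : ∀ y, B y → (Nat.card {g : G // ¬ Q g y} : ℝ) ≤ b) :
    (Nat.card {x : Fin (k + 1) → G // ¬ (B (Fin.tail x) ∧ Q (x 0) (Fin.tail x))} : ℝ) ≤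
      Fintype.card G * Nat.card {y : Fin k → G // ¬ B y} + (Fintype.card G : ℝ) ^ k * b := by
  classical
  rw [card_cons k (fun g y => ¬ (B y ∧ Q g y))]
  push_cast
  have h1 : ∀ y : Fin k → G, (Nat.card {g : G // ¬ (B y ∧ Q g y)} : ℝ) ≤
      (if ¬ B y then (Fintype.card G : ℝ) else 0) + b := by
    intro y
    by_cases hy : B y
    · rw [if_neg (not_not.2 hy), zero_add]
      refine le_trans ?_ (h y hy)
      exact_mod_cast RC14.card_mono (fun g => ¬ (B y ∧ Q g y)) (fun g => ¬ Q g y)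
        fun g hg hq => hg ⟨hy, hq⟩
    · rw [if_pos hy]
      have h2 : (Nat.card {g : G // ¬ (B y ∧ Q g y)} : ℝ) ≤ Fintype.card G := by
        rw [Nat.card_eq_fintype_card]
        exact_mod_cast Fintype.card_subtype_le _
      linarith
  refine (Finset.sum_le_sum fun y _ => h1 y).trans ?_
  rw [Finset.sum_add_distrib, Finset.sum_const, Finset.card_univ, nsmul_eq_mul, Fintype.card_fun,
    Fintype.card_fin, ← Finset.sum_filter, Finset.sum_const, nsmul_eq_mul]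
  have h3 : (#(univ.filter fun y : Fin k → G => ¬ B y) : ℝ) =
      Nat.card {y : Fin k → G // ¬ B y} := by
    rw [Nat.card_eq_fintype_card, Fintype.card_subtype]
  rw [h3]
  push_cast
  linarith

end count

lemma bad_of_tendsto {k : ℕ} (P : ∀ n, (Fin k → Alt n) → Prop)
    (h : Tendsto (fun n : ℕ => (Nat.card {x : Fin k → Alt n // P n x} : ℝ) /
      (Fintype.card (Alt n) : ℝ) ^ k) atTop (𝓝 1)) (e : ℝ) (he : 0 < e) :
    ∀ᶠ n : ℕ in atTop, (Nat.card {x : Fin k → Alt n // ¬ P n x} : ℝ) ≤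
      e * (Fintype.card (Alt n) : ℝ) ^ k := by
  have h1 := (tendsto_order.1 h).1 (1 - e) (by linarith)
  filter_upwards [h1] with n hn
  have hA : (0 : ℝ) < (Fintype.card (Alt n) : ℝ) := by exact_mod_cast Fintype.card_pos
  have hp : (0 : ℝ) < (Fintype.card (Alt n) : ℝ) ^ k := by positivity
  rw [lt_div_iff₀ hp, RC14.card_compl, Fintype.card_fun, Fintype.card_fin] at hn
  push_cast at hn
  linarith

lemma tendsto_of_bad {k : ℕ} (P : ∀ n, (Fin k → Alt n) → Prop)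
    (h : ∀ e : ℝ, 0 < e → ∀ᶠ n : ℕ in atTop, (Nat.card {x : Fin k → Alt n // ¬ P n x} : ℝ) ≤
      e * (Fintype.card (Alt n) : ℝ) ^ k) :
    Tendsto (fun n : ℕ => (Nat.card {x : Fin k → Alt n // P n x} : ℝ) /
      (Fintype.card (Alt n) : ℝ) ^ k) atTop (𝓝 1) := by
  have hpos : ∀ n : ℕ, (0 : ℝ) < (Fintype.card (Alt n) : ℝ) := fun n => by
    exact_mod_cast Fintype.card_pos
  refine tendsto_order.mpr ⟨fun b hb => ?_, fun b hb => ?_⟩
  · filter_upwards [h ((1 - b) / 2) (by linarith)] with n hn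
    have hA := hpos n
    rw [lt_div_iff₀ (by positivity), RC14.card_compl, Fintype.card_fun, Fintype.card_fin]
    push_cast
    have hp : (0 : ℝ) < (Fintype.card (Alt n) : ℝ) ^ k := by positivity
    nlinarith
  · refine Eventually.of_forall fun n => lt_of_le_of_lt ?_ hb
    have hA := hpos n
    rw [div_le_one (by positivity), RC14.card_compl, Fintype.card_fun, Fintype.card_fin]
    push_cast
    linarith [Nat.cast_nonneg (α := ℝ) (Nat.card {x : Fin k → Alt n // ¬ P n x})]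

/-- the gap hypothesis for a smaller constant -/
lemma tgap_mono {n k : ℕ} {x : Fin k → Alt n} {ε ε' : ℝ} (h : ε' ≤ ε) {r : ℕ}
    (hx : ∀ f : Tup r n → ℝ, ∑ a, f a = 0 →
      ∑ a, f a * Pool.Agent.Results.MP_75608d_al.GapAllTuples.swalk x f a ≤
        (1 - ε) * ∑ a, f a ^ 2) : TGap x ε' r := by
  intro f hf
  have h1 := hx f hf
  have h2 : ∑ a, f a * av (tw x r) f a =
      ∑ a, f a * Pool.Agent.Results.MP_75608d_al.GapAllTuples.swalk x f a := rfl
  rw [h2]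
  refine h1.trans ?_
  have h3 : 0 ≤ ∑ a, f a ^ 2 := sum_nonneg fun a _ => sq_nonneg _
  nlinarith

lemma irrFew_of {n k : ℕ} {x : Fin k → Alt n} {ε ε' η : ℝ} (h : ε' ≤ ε)
    (hx : Pool.Agent.Results.MP_75608d_al.FewExceptionalEigenvalues.FewExceptional ε η x) :
    IrrFew ε' η x := by
  intro W _ _ _ ρ hirr hnt U hU
  have h1 : Pool.Agent.Results.MP_75608d_al.FewExceptionalEigenvalues.IrrRep ρ := by
    refine ⟨?_, fun U hU => hirr.2.2 U le_top hU⟩
    by_contra hcon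
    push Not at hcon
    apply hirr.1
    rw [Submodule.eq_bot_iff]
    intro v _
    exact hcon v
  refine (hx.1 W ρ h1 hnt).1 U fun v hv => ?_
  have h2 := hU v hv
  have h3 : (1 - ε) * ‖v‖ ^ 2 ≤ (1 - ε') * ‖v‖ ^ 2 := by
    have : 0 ≤ ‖v‖ ^ 2 := by positivity
    nlinarith
  exact h3.trans h2

/-- the words in the tail are words in all generators -/
lemma PB_tail {n k : ℕ} {x : Fin (k + 1) → Alt n} {L : ℕ} {σ : Equiv.Perm (Fin n)}
    (h : σ ∈ PB (Fin.tail x) L) : σ ∈ PB x L :=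
  PB.extend (fun i => ⟨i.succ, rfl⟩) h

/-- the whole probabilistic argument for one `n` -/
theorem one_n {n k : ℕ} (hk : 1 ≤ k) {ε ε₂ η X : ℝ} (hε : ε ≤ 2) (hε2 : ε₂ ≤ 1) (hη : 0 ≤ η)
    {L M : ℕ} (hn : 400 ≤ n) (hM2 : 2 ≤ M)
    (hL : (1 - ε / 2) ^ L * (n : ℝ) ^ 2 ≤ 1 / (16 * (n : ℝ) ^ 2))
    (hT : (1 - ε / 2) ^ n * ((n : ℝ) ^ M) ^ 2 < 1)
    (h48 : 48 * n ≤ M ^ 2) (h2M : 2 * M ≤ n) (hX1 : 1 ≤ X) (hX : 102800 ≤ X ^ 2)
    (hLX : (L : ℝ) ≤ X) (hMX : (n : ℝ) ≤ 2 * X * M) :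
    (Nat.card {x : Fin (k + 1) → Alt n // ¬ ∀ σ : Equiv.Perm (Fin n), Equiv.Perm.sign σ = 1 →
        ∃ D : ℕ, (D : ℝ) ≤ n * X ^ 10 ∧ σ ∈ PB x D} : ℝ) ≤
      Nat.card {x : Fin (k + 1) → Alt n // ¬ ∀ r ≤ M, TGap x ε r} +
      (Fintype.card (Alt n) * Nat.card {y : Fin k → Alt n // ¬ IrrFew ε₂ η y} +
      (Fintype.card (Alt n) : ℝ) ^ k *
        ((η + (1 - ε₂ / 2) ^ (2 * L)) * (n : ℝ) ^ 2 / 2 * Fintype.card (Alt n))) := by
  classical
  obtain ⟨E, hE1, hE2, hE3⟩ := exists_class hn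
  have hN : (0 : ℝ) < Fintype.card (Alt n) := by exact_mod_cast Fintype.card_pos
  have hE0 : 0 < #E := by
    by_contra hcon
    have h0 : #E = 0 := by omega
    rw [h0, mul_zero] at hE2
    have : 0 < Fintype.card (Alt n) := Fintype.card_pos
    have h1 : 2 * Fintype.card (Alt n) ≤ 0 := hE2
    omega
  have he : (0 : ℝ) < #E := by exact_mod_cast hE0
  have hE2' : 2 * (Fintype.card (Alt n) : ℝ) ≤ (n : ℝ) ^ 2 * #E := by exact_mod_cast hE2
  set c : ℝ := η + (1 - ε₂ / 2) ^ (2 * L) with hc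
  have hc0 : 0 ≤ c := add_nonneg hη (pow_nonneg (by linarith) _)
  have hb : ∀ y : Fin k → Alt n, IrrFew ε₂ η y →
      (Nat.card {g : Alt n // ¬ ∃ w : Fin L → Fin k × Fin 4, g * wd y w ∈ E} : ℝ) ≤
        c * (n : ℝ) ^ 2 / 2 * Fintype.card (Alt n) := by
    intro y hy
    have h1 := cover hk hη hε2 y hy L E hE1 hE0
    have h2 : (Nat.card {g : Alt n // ¬ ∃ w : Fin L → Fin k × Fin 4, g * wd y w ∈ E} : ℝ) =
        #(univ.filter fun g : Alt n => ∀ w : Fin L → Fin k × Fin 4, g * wd y w ∉ E) := by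
      rw [Nat.card_eq_fintype_card, Fintype.card_subtype]
      congr 2
      ext g
      simp
    rw [h2]
    refine h1.trans ?_
    rw [div_le_iff₀ he]
    have h3 : c * Fintype.card (Alt n) * (2 * (Fintype.card (Alt n) : ℝ)) ≤
        c * Fintype.card (Alt n) * ((n : ℝ) ^ 2 * #E) :=
      mul_le_mul_of_nonneg_left hE2' (by positivity)
    linarith
  have h2 := count_two k (fun y : Fin k → Alt n => IrrFew ε₂ η y)
    (fun g y => ∃ w : Fin L → Fin k × Fin 4, g * wd y w ∈ E) _ (by positivity) hb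
  have h3 : (Nat.card {x : Fin (k + 1) → Alt n // ¬ ∀ σ : Equiv.Perm (Fin n),
      Equiv.Perm.sign σ = 1 → ∃ D : ℕ, (D : ℝ) ≤ n * X ^ 10 ∧ σ ∈ PB x D} : ℝ) ≤
      Nat.card {x : Fin (k + 1) → Alt n // ¬ ∀ r ≤ M, TGap x ε r} +
      Nat.card {x : Fin (k + 1) → Alt n // ¬ (IrrFew ε₂ η (Fin.tail x) ∧
        ∃ w : Fin L → Fin k × Fin 4, x 0 * wd (Fin.tail x) w ∈ E)} := by
    rw [Nat.card_eq_fintype_card, Nat.card_eq_fintype_card, Nat.card_eq_fintype_card,
      Fintype.card_subtype, Fintype.card_subtype, Fintype.card_subtype]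
    have h4 : (univ.filter fun x : Fin (k + 1) → Alt n => ¬ ∀ σ : Equiv.Perm (Fin n),
        Equiv.Perm.sign σ = 1 → ∃ D : ℕ, (D : ℝ) ≤ n * X ^ 10 ∧ σ ∈ PB x D) ⊆
        (univ.filter fun x : Fin (k + 1) → Alt n => ¬ ∀ r ≤ M, TGap x ε r) ∪
        (univ.filter fun x : Fin (k + 1) → Alt n => ¬ (IrrFew ε₂ η (Fin.tail x) ∧
          ∃ w : Fin L → Fin k × Fin 4, x 0 * wd (Fin.tail x) w ∈ E)) := by
      intro x hx
      rw [mem_filter] at hx
      rw [mem_union, mem_filter, mem_filter]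
      by_contra hcon
      push Not at hcon
      apply hx.2
      obtain ⟨hA, hB⟩ := hcon
      have hA' := hA (mem_univ _)
      obtain ⟨-, w, hw⟩ := hB (mem_univ _)
      have hgw : ((x 0 * wd (Fin.tail x) w : Alt n) : Equiv.Perm (Fin n)) ∈ PB x (1 + L) := by
        rw [Subgroup.coe_mul]
        exact PB.mul (PB.gen 0) (PB_tail (PB_wd (Fin.tail x) w))
      obtain ⟨ℓ, s, g1, g2, g3, g4⟩ := det (by omega) hε hn hA' hM2 hL hT h48 h2M hgw
        (hE3 _ hw)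
      intro σ hσ
      exact ⟨_, num hX1 hX (by omega) hLX hMX g1 g2 g3, g4 σ hσ⟩
    exact_mod_cast (card_le_card h4).trans (card_union_le _ _)
  linarith

end

end RD516
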