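import Pool.Agent.U516.RD.Words

/-!
From one word of small support to all even permutations: every even permutation is a product of a
controlled number of conjugates.
-/

namespace RD516
open Finset Equiv

variable {n k : ℕ} {x : Fin k → alternatingGroup (Fin n)}

/-- two permutations agreeing on the support of `t` conjugate `t` to the same element -/
lemma conj_eq_of_agree {g π t : Perm (Fin n)} (h : ∀ y ∈ t.support, g y = π y) :
    g * t * g⁻¹ = π * t * π⁻¹ := by
  have hd : (π⁻¹ * g).Disjoint t := by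
    intro y
    by_cases hy : t y = y
    · exact Or.inr hy
    · left
      rw [Perm.mul_apply, h y (Perm.mem_support.2 hy)]
      simp
  have hc : π⁻¹ * g * t = t * (π⁻¹ * g) := hd.commute
  have h2 : g * t = π * t * π⁻¹ * g := by
    calc g * t = π * (π⁻¹ * g * t) := by group
      _ = π * (t * (π⁻¹ * g)) := by rw [hc]
      _ = π * t * π⁻¹ * g := by group
  rw [h2]; group

/-- every tuple of `r ≤ M` distinct points can be moved to every other one by a word of length at
most `T` -/
def Trans (x : Fin k → alternatingGroup (Fin n)) (M T : ℕ) : Prop :=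
  ∀ r ≤ M, ∀ a b : Fin r ↪ Fin n, ∃ g ∈ PB x T, ∀ i, g (a i) = b i

lemma conj_mem {M T ℓ : ℕ} (hT : Trans x M T) {t : Perm (Fin n)} (ht : t ∈ PB x ℓ)
    (hs : #t.support ≤ M) (π : Perm (Fin n)) : π * t * π⁻¹ ∈ PB x (ℓ + 2 * T) := by
  obtain ⟨g, hg, hgi⟩ := hT #t.support hs
    ((Finset.equivFin t.support).symm.toEmbedding.trans (Function.Embedding.subtype _))
    (((Finset.equivFin t.support).symm.toEmbedding.trans
      (Function.Embedding.subtype _)).trans π.toEmbedding)
  have h1 : ∀ y ∈ t.support, g y = π y := by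
    intro y hy
    have := hgi (Finset.equivFin t.support ⟨y, hy⟩)
    simpa using this
  rw [← conj_eq_of_agree h1]
  exact PB.conj ht hg

/-- an involution with prescribed support of even size -/
lemma exists_invol (h : ℕ) : ∀ Z : Finset (Fin n), #Z = 2 * h →
    ∃ κ : Perm (Fin n), κ * κ = 1 ∧ κ.support = Z := by
  induction h with
  | zero =>
    intro Z hZ
    exact ⟨1, by simp, by rw [Perm.support_one]; exact (card_eq_zero.1 (by simpa using hZ)).symm⟩
  | succ h ih =>
    intro Z hZ
    obtain ⟨a, ha⟩ : Z.Nonempty := card_pos.1 (by omega)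
    obtain ⟨b, hb⟩ : (Z.erase a).Nonempty := card_pos.1 (by rw [card_erase_of_mem ha]; omega)
    have hab : a ≠ b := fun e => by rw [e] at hb; simp at hb
    have hbZ := mem_of_mem_erase hb
    obtain ⟨κ, h1, h2⟩ := ih ((Z.erase a).erase b)
      (by rw [card_erase_of_mem hb, card_erase_of_mem ha]; omega)
    have hd : (swap a b).Disjoint κ := by
      rw [Perm.disjoint_iff_disjoint_support, Perm.support_swap hab, h2, Finset.disjoint_left]
      intro y hy
      simp only [mem_insert, mem_singleton] at hy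
      rcases hy with rfl | rfl <;> simp
    refine ⟨swap a b * κ, ?_, ?_⟩
    · have hc := hd.commute
      calc swap a b * κ * (swap a b * κ) = swap a b * (κ * swap a b) * κ := by group
        _ = swap a b * (swap a b * κ) * κ := by rw [hc.eq]
        _ = (swap a b * swap a b) * (κ * κ) := by group
        _ = 1 := by rw [h1, swap_mul_self, one_mul]
    · rw [hd.support_mul, Perm.support_swap hab, h2]
      ext y
      simp only [mem_union, mem_insert, mem_singleton, mem_erase]
      constructor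
      · rintro ((rfl | rfl) | h)
        · exact ha
        · exact hbZ
        · exact h.2.2
      · intro hy
        by_cases h3 : y = a
        · exact Or.inl (Or.inl h3)
        · by_cases h4 : y = b
          · exact Or.inl (Or.inr h4)
          · exact Or.inr ⟨h4, h3, hy⟩

lemma cycleType_invol {ρ : Perm (Fin n)} (h : ρ * ρ = 1) :
    ρ.cycleType = Multiset.replicate (#ρ.support / 2) 2 := by
  have h2 : ∀ c ∈ ρ.cycleType, c = 2 :=
    (Perm.pow_prime_eq_one_iff (σ := ρ) (p := 2)).1 (by rw [pow_two, h])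
  have h3 := Multiset.eq_replicate_of_mem h2
  have h4 : ρ.cycleType.sum = #ρ.support := Perm.sum_cycleType ρ
  rw [h3, Multiset.sum_replicate, smul_eq_mul] at h4
  rw [← h4, Nat.mul_div_cancel _ (by norm_num)]
  exact h3

lemma two_dvd_support {ρ : Perm (Fin n)} (h : ρ * ρ = 1) : 2 ∣ #ρ.support := by
  have h1 := cycleType_invol h
  have h4 : ρ.cycleType.sum = #ρ.support := Perm.sum_cycleType ρ
  rw [h1, Multiset.sum_replicate, smul_eq_mul] at h4
  exact ⟨#ρ.support / 2, by omega⟩

lemma isConj_invol {ρ τ : Perm (Fin n)} (h : ρ * ρ = 1) (h' : τ * τ = 1)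
    (hc : #ρ.support = #τ.support) : IsConj ρ τ := by
  rw [Perm.isConj_iff_cycleType_eq, cycleType_invol h, cycleType_invol h', hc]

lemma sign_invol {ρ : Perm (Fin n)} (h : ρ * ρ = 1) : Perm.sign ρ = (-1) ^ (#ρ.support / 2) := by
  rw [Perm.sign_of_cycleType, cycleType_invol h, Multiset.sum_replicate, Multiset.card_replicate,
    smul_eq_mul, pow_add]
  rw [Even.neg_one_pow ⟨#ρ.support / 2, by ring⟩, one_mul]

/-- a set `Z` in the support of `t` with `Z` and `t Z` disjoint, of at least a third of the size of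
the support -/
lemma exists_free (t : Perm (Fin n)) : ∃ Z ⊆ t.support, Disjoint Z (Z.image t) ∧
    #t.support ≤ 3 * #Z := by
  classical
  obtain ⟨Z, hZ, hmax⟩ := Finset.exists_max_image
    (t.support.powerset.filter fun Z => Disjoint Z (Z.image t)) Finset.card ⟨∅, by simp⟩
  rw [mem_filter, mem_powerset] at hZ
  refine ⟨Z, hZ.1, hZ.2, ?_⟩
  have hcov : t.support ⊆ (Z ∪ Z.image t) ∪ Z.image ⇑t⁻¹ := by
    intro y hy
    by_contra hcon
    simp only [mem_union, not_or] at hcon
    obtain ⟨⟨h1, h2⟩, h3⟩ := hcon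
    have h4 : t y ∉ Z := fun h => h3 (mem_image.2 ⟨t y, h, by simp⟩)
    have h5 : insert y Z ∈ t.support.powerset.filter fun Z => Disjoint Z (Z.image t) := by
      rw [mem_filter, mem_powerset]
      refine ⟨insert_subset hy hZ.1, ?_⟩
      rw [Finset.disjoint_left]
      intro w hw hw2
      rw [mem_image] at hw2
      obtain ⟨v, hv, rfl⟩ := hw2
      rw [mem_insert] at hw hv
      rcases hv with rfl | hv
      · rcases hw with hw | hw
        · exact (Perm.mem_support.1 hy) hw
        · exact h4 hw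
      · rcases hw with hw | hw
        · exact h2 (mem_image.2 ⟨v, hv, hw⟩)
        · exact (Finset.disjoint_left.1 hZ.2) hw (mem_image_of_mem _ hv)
    have h6 := hmax _ h5
    rw [card_insert_of_notMem h1] at h6
    omega
  have h7 := card_le_card hcov
  have h8 := card_union_le (Z ∪ Z.image t) (Z.image ⇑t⁻¹)
  have h9 := card_union_le Z (Z.image t)
  have h10 : #(Z.image t) ≤ #Z := card_image_le
  have h11 : #(Z.image ⇑t⁻¹) ≤ #Z := card_image_le
  omega

lemma support_conj' (t κ : Perm (Fin n)) : (t * κ * t⁻¹).support = κ.support.image t := by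
  ext y
  rw [Perm.mem_support, mem_image]
  constructor
  · intro h
    refine ⟨t⁻¹ y, ?_, by simp⟩
    rw [Perm.mem_support]
    intro h2
    apply h
    rw [Perm.mul_apply, Perm.mul_apply, h2]
    simp
  · rintro ⟨a, ha, rfl⟩ h
    rw [Perm.mem_support] at ha
    apply ha
    have h3 : t (κ a) = t a := by simpa using h
    exact t.injective h3

/-- involutions with `2 h` transpositions are cheap -/
lemma cheap_invol {M T ℓ : ℕ} (hT : Trans x M T) {t : Perm (Fin n)} (ht : t ∈ PB x ℓ)
    (hs : #t.support ≤ M) {h : ℕ} (hh : 6 * h ≤ #t.support) {ρ : Perm (Fin n)} (hρ : ρ * ρ = 1)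
    (hc : #ρ.support = 4 * h) : ρ ∈ PB x (2 * ℓ + 4 * T) := by
  obtain ⟨Z, hZ1, hZ2, hZ3⟩ := exists_free t
  obtain ⟨Y, hY1, hY2⟩ := exists_subset_card_eq (s := Z) (n := 2 * h) (by omega)
  obtain ⟨κ, hκ, hκs⟩ := exists_invol h Y hY2
  have hκi : κ⁻¹ = κ := by
    rw [inv_eq_iff_mul_eq_one, hκ]
  have hd : (t * κ * t⁻¹).Disjoint κ := by
    rw [Perm.disjoint_iff_disjoint_support, support_conj', hκs]
    refine Disjoint.mono (image_subset_image hY1) hY1 hZ2.symm
  have hu : t * κ * t⁻¹ * κ ∈ PB x (2 * ℓ + 2 * T) := by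
    have h1 := conj_mem hT (PB.inv ht) (by rw [Perm.support_inv]; exact hs) κ
    have h2 := PB.mul ht h1
    rw [hκi] at h2
    have h3 : t * (κ * t⁻¹ * κ) = t * κ * t⁻¹ * κ := by group
    rw [h3] at h2
    exact PB.mono (by omega) h2
  have hcomm := hd.commute
  have hu2 : (t * κ * t⁻¹ * κ) * (t * κ * t⁻¹ * κ) = 1 := by
    have h1 : (t * κ * t⁻¹) * (t * κ * t⁻¹) = 1 := by
      calc (t * κ * t⁻¹) * (t * κ * t⁻¹) = t * (κ * κ) * t⁻¹ := by group
        _ = 1 := by rw [hκ]; group
    calc (t * κ * t⁻¹ * κ) * (t * κ * t⁻¹ * κ)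
        = (t * κ * t⁻¹) * (κ * (t * κ * t⁻¹)) * κ := by group
      _ = (t * κ * t⁻¹) * ((t * κ * t⁻¹) * κ) * κ := by rw [hcomm.eq]
      _ = ((t * κ * t⁻¹) * (t * κ * t⁻¹)) * (κ * κ) := by group
      _ = 1 := by rw [h1, hκ, one_mul]
  have hcard1 : #((t * κ * t⁻¹).support) = 2 * h := by
    rw [support_conj', hκs, card_image_of_injective _ t.injective, hY2]
  have hus : #(t * κ * t⁻¹ * κ).support = 4 * h := by
    rw [hd.card_support_mul, hcard1, hκs, hY2]; ring
  have hle : 4 * h ≤ M := by omega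
  obtain ⟨c, hc'⟩ := isConj_iff.1 (isConj_invol hu2 hρ (by rw [hus, hc]))
  rw [← hc']
  exact PB.mono (by omega) (conj_mem hT hu (by rw [hus]; exact hle) c)

/-- splitting off one transposition -/
lemma split_one {ρ : Perm (Fin n)} (hρ : ρ * ρ = 1) {y : Fin n} (hy : ρ y ≠ y) :
    ∃ ρ' : Perm (Fin n), ρ' * ρ' = 1 ∧ (swap y (ρ y)).Disjoint ρ' ∧ ρ = swap y (ρ y) * ρ' ∧
      #ρ.support = #ρ'.support + 2 := by
  have hρρ : ∀ z, ρ (ρ z) = z := fun z => by rw [← Perm.mul_apply, hρ, Perm.one_apply]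
  have hcomm : ρ * swap y (ρ y) = swap y (ρ y) * ρ := by
    have h1 : ρ * swap y (ρ y) = swap (ρ y) (ρ (ρ y)) * ρ := Equiv.mul_swap_eq_swap_mul _ _ _
    rw [h1, hρρ, swap_comm]
  have hss : swap y (ρ y) * swap y (ρ y) = 1 := swap_mul_self _ _
  have hd : (swap y (ρ y)).Disjoint (swap y (ρ y) * ρ) := by
    intro z
    by_cases h1 : z = y
    · right
      rw [h1, Perm.mul_apply, swap_apply_right]
    · by_cases h2 : z = ρ y
      · right
        rw [h2, Perm.mul_apply, hρρ, swap_apply_left]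
      · left
        exact swap_apply_of_ne_of_ne h1 h2
  have heq : ρ = swap y (ρ y) * (swap y (ρ y) * ρ) := by
    rw [← mul_assoc, hss, one_mul]
  refine ⟨swap y (ρ y) * ρ, ?_, hd, heq, ?_⟩
  · calc swap y (ρ y) * ρ * (swap y (ρ y) * ρ) = swap y (ρ y) * (ρ * swap y (ρ y)) * ρ := by group
      _ = (swap y (ρ y) * swap y (ρ y)) * (ρ * ρ) := by rw [hcomm]; group
      _ = 1 := by rw [hss, hρ, one_mul]
  · have h1 := hd.card_support_mul
    rw [← heq, Perm.card_support_swap hy.symm] at h1
    omega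

/-- splitting off `c` transpositions -/
lemma split_many {ρ : Perm (Fin n)} (hρ : ρ * ρ = 1) (c : ℕ) (hc : 2 * c ≤ #ρ.support) :
    ∃ ρ₁ ρ₂ : Perm (Fin n), ρ₁ * ρ₁ = 1 ∧ ρ₂ * ρ₂ = 1 ∧ ρ₁.Disjoint ρ₂ ∧ ρ = ρ₁ * ρ₂ ∧
      #ρ₁.support = 2 * c ∧ #ρ.support = 2 * c + #ρ₂.support := by
  induction c with
  | zero => exact ⟨1, ρ, by simp, hρ, Perm.disjoint_one_left _, by simp, by simp, by simp⟩
  | succ c ih =>
    obtain ⟨ρ₁, ρ₂, h1, h2, h3, h4, h5, h6⟩ := ih (by omega)
    have h7 : 0 < #ρ₂.support := by omega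
    obtain ⟨y, hy⟩ := card_pos.1 h7
    rw [Perm.mem_support] at hy
    obtain ⟨ρ', g1, g2, g3, g4⟩ := split_one h2 hy
    have hsub : (swap y (ρ₂ y)).support ⊆ ρ₂.support := by
      rw [Perm.support_swap hy.symm]
      intro z hz
      simp only [mem_insert, mem_singleton] at hz
      rcases hz with rfl | rfl
      · exact Perm.mem_support.2 hy
      · exact Perm.apply_mem_support.2 (Perm.mem_support.2 hy)
    have hsub' : ρ'.support ⊆ ρ₂.support := by
      have h8 := g2.support_mul
      rw [← g3] at h8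
      rw [h8]
      exact subset_union_right
    have hd1 : ρ₁.Disjoint (swap y (ρ₂ y)) := by
      rw [Perm.disjoint_iff_disjoint_support] at h3 ⊢
      exact h3.mono_right hsub
    have hd2 : ρ₁.Disjoint ρ' := by
      rw [Perm.disjoint_iff_disjoint_support] at h3 ⊢
      exact h3.mono_right hsub'
    refine ⟨ρ₁ * swap y (ρ₂ y), ρ', ?_, g1, ?_, ?_, ?_, ?_⟩
    · have hc1 := hd1.commute
      calc ρ₁ * swap y (ρ₂ y) * (ρ₁ * swap y (ρ₂ y))
          = ρ₁ * (swap y (ρ₂ y) * ρ₁) * swap y (ρ₂ y) := by group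
        _ = ρ₁ * (ρ₁ * swap y (ρ₂ y)) * swap y (ρ₂ y) := by rw [← hc1.eq]
        _ = (ρ₁ * ρ₁) * (swap y (ρ₂ y) * swap y (ρ₂ y)) := by group
        _ = 1 := by rw [h1, swap_mul_self, one_mul]
    · exact hd2.mul_left g2
    · calc ρ = ρ₁ * ρ₂ := h4
        _ = ρ₁ * (swap y (ρ₂ y) * ρ') := by rw [← g3]
        _ = ρ₁ * swap y (ρ₂ y) * ρ' := by rw [mul_assoc]
    · rw [hd1.card_support_mul, Perm.card_support_swap hy.symm, h5]; ring
    · rw [h6, g4]; ring

/-- every even involution is a product of few cheap ones -/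
lemma all_invol {K q : ℕ} (hq : 1 ≤ q)
    (hK : ∀ h ≤ q, ∀ ρ : Perm (Fin n), ρ * ρ = 1 → #ρ.support = 4 * h → ρ ∈ PB x K) :
    ∀ N : ℕ, ∀ ρ : Perm (Fin n), ρ * ρ = 1 → #ρ.support = 4 * N →
      ρ ∈ PB x (K * (N / q + 1)) := by
  intro N
  induction N using Nat.strong_induction_on with
  | _ N ih =>
    intro ρ hρ hN
    by_cases hNq : N ≤ q
    · refine PB.mono ?_ (hK N hNq ρ hρ hN)
      calc K = K * 1 := by ring
        _ ≤ K * (N / q + 1) := Nat.mul_le_mul_left _ (Nat.le_add_left _ _)
    · obtain ⟨ρ₁, ρ₂, h1, h2, -, h4, h5, h6⟩ := split_many hρ (2 * q) (by omega)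
      have h7 : ρ₁ ∈ PB x K := hK q le_rfl ρ₁ h1 (by omega)
      have h8 : ρ₂ ∈ PB x (K * ((N - q) / q + 1)) := ih (N - q) (by omega) ρ₂ h2 (by omega)
      rw [h4]
      refine PB.mono ?_ (PB.mul h7 h8)
      have h9 : N / q = (N - q) / q + 1 := by
        conv_lhs => rw [← Nat.sub_add_cancel (by omega : q ≤ N)]
        rw [Nat.add_div_right _ (by omega)]
      rw [h9]
      apply le_of_eq
      ring

/-- every permutation is a product of two involutions -/
lemma two_invol (σ : Perm (Fin n)) : ∃ ρ τ : Perm (Fin n), ρ * ρ = 1 ∧ τ * τ = 1 ∧ σ = ρ * τ := by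
  classical
  let b : Fin n → Fin n := fun y => (Quotient.mk (Perm.SameCycle.setoid σ) y).out
  have hb : ∀ y, Perm.SameCycle σ (b y) y := fun y =>
    @Quotient.exact _ (Perm.SameCycle.setoid σ) _ _ (Quotient.out_eq _)
  have hbs : ∀ y z, Perm.SameCycle σ y z → b y = b z := by
    intro y z h
    have h1 : (Quotient.mk (Perm.SameCycle.setoid σ) y) = Quotient.mk _ z := Quotient.sound h
    change Quotient.out _ = Quotient.out _
    rw [h1]
  have hb' := hb
  choose e he using hb'
  have key : ∀ (c : Fin n) (i j : ℤ), (σ ^ i) c = (σ ^ j) c → (σ ^ (-i)) c = (σ ^ (-j)) c := by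
    intro c i j h
    have h1 : (σ ^ (-i - j)) ((σ ^ i) c) = (σ ^ (-i - j)) ((σ ^ j) c) := by rw [h]
    rw [← Perm.mul_apply, ← Perm.mul_apply, ← zpow_add, ← zpow_add] at h1
    have e1 : -i - j + i = -j := by ring
    have e2 : -i - j + j = -i := by ring
    rw [e1, e2] at h1
    exact h1.symm
  let ι : Fin n → Fin n := fun y => (σ ^ (-(e y))) (b y)
  have hbι : ∀ y, b (ι y) = b y := by
    intro y
    refine hbs _ _ ?_
    refine Perm.SameCycle.trans (Perm.SameCycle.symm ?_) (hb y)
    exact ⟨-(e y), rfl⟩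
  have hinv : Function.Involutive ι := by
    intro y
    have h1 := he (ι y)
    rw [hbι] at h1
    have h2 := key (b y) (e (ι y)) (-(e y)) h1
    change (σ ^ (-(e (ι y)))) (b (ι y)) = y
    rw [hbι, h2, neg_neg, he]
  have hσ : ∀ y, ι (σ y) = σ⁻¹ (ι y) := by
    intro y
    have hbσ : b (σ y) = b y := hbs _ _ (Perm.SameCycle.symm ⟨1, by simp⟩)
    have h1 := he (σ y)
    rw [hbσ] at h1
    have h2 : (σ ^ (e (σ y))) (b y) = (σ ^ (1 + e y)) (b y) := by
      rw [h1, zpow_add, Perm.mul_apply, he, zpow_one]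
    have h3 := key _ _ _ h2
    change (σ ^ (-(e (σ y)))) (b (σ y)) = σ⁻¹ ((σ ^ (-(e y))) (b y))
    rw [hbσ, h3, neg_add, zpow_add, Perm.mul_apply, zpow_neg_one]
  refine ⟨σ * hinv.toPerm, hinv.toPerm, ?_, ?_, ?_⟩
  · ext y
    change (σ (ι (σ (ι y))) : ℕ) = y
    rw [hσ, hinv]
    simp
  · ext y
    change (ι (ι y) : ℕ) = y
    rw [hinv]
  · have h1 : hinv.toPerm * hinv.toPerm = 1 := by
      ext y
      change (ι (ι y) : ℕ) = y
      rw [hinv]
    rw [mul_assoc, h1, mul_one]

/-- the end game: if involutions with `2 h ≤ 2 q` transpositions are words of length at most `K`,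
every even permutation is a word of length `2 K (n / 4 q + 2)` -/
lemma all_even {K q : ℕ} (hq : 1 ≤ q) (hn : 6 ≤ n)
    (hK : ∀ h ≤ q, ∀ ρ : Perm (Fin n), ρ * ρ = 1 → #ρ.support = 4 * h → ρ ∈ PB x K)
    {σ : Perm (Fin n)} (hσ : Perm.sign σ = 1) : σ ∈ PB x (2 * (K * (n / (4 * q) + 2))) := by
  classical
  have hev : ∀ ρ : Perm (Fin n), ρ * ρ = 1 → Perm.sign ρ = 1 →
      ρ ∈ PB x (K * (n / (4 * q) + 1)) := by
    intro ρ hρ hs
    rw [sign_invol hρ] at hs
    have h1 : Even (#ρ.support / 2) := by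
      by_contra h
      rw [Nat.not_even_iff_odd] at h
      rw [h.neg_one_pow] at hs
      exact absurd hs (by decide)
    obtain ⟨c, hc⟩ := h1
    obtain ⟨d, hd⟩ := two_dvd_support hρ
    have h2 : #ρ.support = 4 * c := by omega
    refine PB.mono ?_ (all_invol hq hK c ρ hρ h2)
    refine Nat.mul_le_mul_left _ (Nat.add_le_add_right ?_ 1)
    rw [← Nat.div_div_eq_div_mul]
    apply Nat.div_le_div_right
    have h3 : #ρ.support ≤ n := by
      have := card_le_univ ρ.support
      rwa [Fintype.card_fin] at this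
    omega
  obtain ⟨ρ, τ, hρ, hτ, h⟩ := two_invol σ
  rw [h, Perm.sign_mul] at hσ
  rcases Int.units_eq_one_or (Perm.sign ρ) with h1 | h1
  · rw [h1, one_mul] at hσ
    rw [h]
    refine PB.mono ?_ (PB.mul (hev ρ hρ h1) (hev τ hτ hσ))
    have : K * (n / (4 * q) + 1) ≤ K * (n / (4 * q) + 2) := Nat.mul_le_mul_left _ (by omega)
    omega
  · have h2 : Perm.sign τ = -1 := by
      rcases Int.units_eq_one_or (Perm.sign τ) with h3 | h3
      · rw [h1, h3] at hσ
        exact absurd hσ (by decide)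
      · exact h3
    have hpos : ∀ ρ : Perm (Fin n), ρ * ρ = 1 → Perm.sign ρ = -1 → 2 * 1 ≤ #ρ.support := by
      intro ρ hρ hs
      rw [sign_invol hρ] at hs
      by_contra hcon
      have : #ρ.support / 2 = 0 := by omega
      rw [this, pow_zero] at hs
      exact absurd hs (by decide)
    obtain ⟨a, b, ha, hb, hab, hρab, has, -⟩ := split_many hρ 1 (hpos ρ hρ h1)
    obtain ⟨a', b', ha', hb', hab', hτab, has', -⟩ := split_many hτ 1 (hpos τ hτ h2)
    have hsa : Perm.sign a = -1 := by rw [sign_invol ha, has]; rfl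
    have hsa' : Perm.sign a' = -1 := by rw [sign_invol ha', has']; rfl
    have hsb : Perm.sign b = 1 := by
      rw [hρab, Perm.sign_mul, hsa] at h1
      rcases Int.units_eq_one_or (Perm.sign b) with h3 | h3
      · exact h3
      · rw [h3] at h1
        exact absurd h1 (by decide)
    have hsb' : Perm.sign b' = 1 := by
      rw [hτab, Perm.sign_mul, hsa'] at h2
      rcases Int.units_eq_one_or (Perm.sign b') with h3 | h3
      · exact h3
      · rw [h3] at h2
        exact absurd h2 (by decide)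
    -- a transposition disjoint from `a` and `a'`
    have hcard : 2 ≤ #(a.support ∪ a'.support)ᶜ := by
      rw [card_compl, Fintype.card_fin]
      have := card_union_le a.support a'.support
      omega
    obtain ⟨Y, hY1, hY2⟩ := exists_subset_card_eq hcard
    obtain ⟨θ, hθ, hθs⟩ := exists_invol 1 Y (by omega)
    have hda : a.Disjoint θ := by
      rw [Perm.disjoint_iff_disjoint_support, hθs, Finset.disjoint_left]
      intro y hy hy2
      have := hY1 hy2
      rw [mem_compl, mem_union] at this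
      exact this (Or.inl hy)
    have hda' : θ.Disjoint a' := by
      rw [Perm.disjoint_iff_disjoint_support, hθs, Finset.disjoint_left]
      intro y hy hy2
      have := hY1 hy
      rw [mem_compl, mem_union] at this
      exact this (Or.inr hy2)
    have hinvmul : ∀ u v : Perm (Fin n), u * u = 1 → v * v = 1 → u.Disjoint v →
        (u * v) * (u * v) = 1 := by
      intro u v hu hv huv
      calc (u * v) * (u * v) = u * (v * u) * v := by group
        _ = u * (u * v) * v := by rw [huv.commute.eq]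
        _ = (u * u) * (v * v) := by group
        _ = 1 := by rw [hu, hv, one_mul]
    have h3 : a * θ ∈ PB x K := hK 1 hq _ (hinvmul _ _ ha hθ hda) (by
      rw [hda.card_support_mul, has, hθs, hY2])
    have h4 : θ * a' ∈ PB x K := hK 1 hq _ (hinvmul _ _ hθ ha' hda') (by
      rw [hda'.card_support_mul, has', hθs, hY2])
    have h5 : σ = b * ((a * θ) * (θ * a')) * b' := by
      calc σ = ρ * τ := h
        _ = (a * b) * (a' * b') := by rw [hρab, hτab]
        _ = (b * a) * (a' * b') := by rw [hab.commute.eq]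
        _ = b * (a * a') * b' := by group
        _ = b * (a * (θ * θ) * a') * b' := by rw [hθ, mul_one]
        _ = b * ((a * θ) * (θ * a')) * b' := by group
    rw [h5]
    refine PB.mono ?_ (PB.mul (PB.mul (hev b hb hsb) (PB.mul h3 h4)) (hev b' hb' hsb'))
    apply le_of_eq
    ring

/-- everything together: one word `t` of small support gives all even permutations -/
theorem all_of_small {M T ℓ : ℕ} (hn : 6 ≤ n) (hT : Trans x M T) {t : Perm (Fin n)}
    (ht : t ∈ PB x ℓ) (hs : #t.support ≤ M) (h6 : 6 ≤ #t.support) {σ : Perm (Fin n)}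
    (hσ : Perm.sign σ = 1) :
    σ ∈ PB x (2 * ((2 * ℓ + 4 * T) * (n / (4 * (#t.support / 6)) + 2))) :=
  all_even (q := #t.support / 6) (by omega) hn
    (fun h hh ρ hρ hc => cheap_invol hT ht hs (by omega) hρ hc) hσ

end RD516
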