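import Pool.Agent.U516.RD.Mix

/-!
Commutators with random conjugates: from support `s` to support about `s^2 / n`.
-/

namespace RD516
open Finset Equiv

noncomputable section

variable {n k : ℕ} {x : Fin k → alternatingGroup (Fin n)}

/-- ordered pair as a tuple -/
def pr (a b : Fin n) (h : a ≠ b) : RC14.Tup 2 n :=
  ⟨![a, b], by
    intro i j hij
    fin_cases i <;> fin_cases j
    · rfl
    · exact absurd hij h
    · exact absurd hij.symm h
    · rfl⟩

@[simp] lemma pr_zero (a b : Fin n) (h : a ≠ b) : pr a b h 0 = a := rfl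
@[simp] lemma pr_one (a b : Fin n) (h : a ≠ b) : pr a b h 1 = b := rfl

lemma sum_tup2 (ψ : Fin n → Fin n → ℝ) :
    ∑ b : RC14.Tup 2 n, ψ (b 0) (b 1) = (∑ u, ∑ v, ψ u v) - ∑ u, ψ u u := by
  classical
  have h1 : ∑ b : RC14.Tup 2 n, ψ (b 0) (b 1) =
      ∑ p ∈ (univ : Finset (Fin n × Fin n)).filter (fun p => p.1 ≠ p.2), ψ p.1 p.2 := by
    refine sum_bij (fun b _ => (b 0, b 1)) ?_ ?_ ?_ ?_
    · intro b _
      simp
    · intro b _ c _ h
      simp only [Prod.mk.injEq] at h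
      ext i
      fin_cases i
      · exact congrArg Fin.val h.1
      · exact congrArg Fin.val h.2
    · intro p hp
      rw [mem_filter] at hp
      exact ⟨pr p.1 p.2 hp.2, mem_univ _, rfl⟩
    · intro b _
      rfl
  have h2 := sum_filter_add_sum_filter_not (univ : Finset (Fin n × Fin n))
    (fun p => p.1 ≠ p.2) (fun p => ψ p.1 p.2)
  have h3 : ∑ p ∈ (univ : Finset (Fin n × Fin n)).filter (fun p => ¬ p.1 ≠ p.2), ψ p.1 p.2 =
      ∑ u, ψ u u := by
    symm
    refine sum_bij (fun u _ => (u, u)) ?_ ?_ ?_ ?_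
    · intro u _; simp
    · intro u _ v _ h; simpa using h
    · intro p hp
      rw [mem_filter, not_not] at hp
      exact ⟨p.1, mem_univ _, Prod.ext rfl hp.2⟩
    · intro u _; rfl
  have h4 : ∑ p : Fin n × Fin n, ψ p.1 p.2 = ∑ u, ∑ v, ψ u v := Fintype.sum_prod_type _
  rw [h1, ← h4, ← h2, h3]
  ring

lemma comm_support (a b : Perm (Fin n)) :
    #(a * b * a⁻¹ * b⁻¹).support = #(univ.filter fun y => a (b y) ≠ b (a y)) := by
  symm
  refine card_bij (fun y _ => b (a y)) ?_ ?_ ?_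
  · intro y hy
    rw [mem_filter] at hy
    rw [Perm.mem_support]
    simpa using hy.2
  · intro y _ z _ h
    exact a.injective (b.injective h)
  · intro z hz
    rw [Perm.mem_support] at hz
    refine ⟨a⁻¹ (b⁻¹ z), ?_, by simp⟩
    rw [mem_filter]
    refine ⟨mem_univ _, ?_⟩
    intro h
    apply hz
    have h1 : (a * b * a⁻¹ * b⁻¹) z = a (b (a⁻¹ (b⁻¹ z))) := rfl
    rw [h1, h]
    simp

/-- combinatorics of the commutator of `t` with its conjugate by `h⁻¹` -/
lemma comm_bounds (t h : Perm (Fin n)) :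
    #(t.support.filter fun y => h y ∉ t.support ∧ h (t y) ∈ t.support) ≤
      #(t * (h⁻¹ * t * h) * t⁻¹ * (h⁻¹ * t * h)⁻¹).support ∧
    #(t * (h⁻¹ * t * h) * t⁻¹ * (h⁻¹ * t * h)⁻¹).support ≤
      3 * #(t.support.filter fun y => h y ∈ t.support) ∧
    #(t.support.filter fun y => h y ∉ t.support ∧ h (t y) ∈ t.support) ≤
      #(t.support.filter fun y => h y ∈ t.support) := by
  have hb : ∀ y, h y ∉ t.support → (h⁻¹ * t * h) y = y := by
    intro y hy
    rw [Perm.notMem_support] at hy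
    rw [Perm.mul_apply, Perm.mul_apply, hy]
    simp
  have hb' : ∀ y, h y ∈ t.support → (h⁻¹ * t * h) y ≠ y := by
    intro y hy h1
    rw [Perm.mem_support] at hy
    apply hy
    have h2 : h ((h⁻¹ * t * h) y) = h y := by rw [h1]
    rw [Perm.mul_apply, Perm.mul_apply] at h2
    simpa using h2
  have hb2 : ∀ y, h y ∈ t.support → h ((h⁻¹ * t * h) y) ∈ t.support := by
    intro y hy
    have h2 : h ((h⁻¹ * t * h) y) = t (h y) := by
      rw [Perm.mul_apply, Perm.mul_apply]; simp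
    rw [h2]
    exact Perm.apply_mem_support.2 hy
  refine ⟨?_, ?_, ?_⟩
  · rw [comm_support]
    refine card_le_card fun y hy => ?_
    rw [mem_filter] at hy ⊢
    refine ⟨mem_univ _, ?_⟩
    rw [hb y hy.2.1]
    exact (hb' _ hy.2.2).symm
  · rw [comm_support]
    set b := h⁻¹ * t * h with hbdef
    set I := t.support.filter fun y => h y ∈ t.support with hI
    have hcov : (univ.filter fun y => t (b y) ≠ b (t y)) ⊆
        (I ∪ I.image ⇑t⁻¹) ∪ I.image ⇑b⁻¹ := by
      intro y hy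
      rw [mem_filter] at hy
      by_contra hcon
      simp only [mem_union, not_or] at hcon
      obtain ⟨⟨h1, h2⟩, h3⟩ := hcon
      have h2' : t y ∉ I := fun h4 => h2 (mem_image.2 ⟨t y, h4, by simp⟩)
      have h3' : b y ∉ I := fun h4 => h3 (mem_image.2 ⟨b y, h4, by simp⟩)
      rw [hI, mem_filter, not_and] at h1 h2' h3'
      apply hy.2
      by_cases h4 : y ∈ t.support
      · have h5 := h1 h4
        rw [hb y h5, hb (t y) (h2' (Perm.apply_mem_support.2 h4))]
      · have h5 : t y = y := Perm.notMem_support.1 h4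
        by_cases h6 : h y ∈ t.support
        · have h7 : b y ∉ t.support := fun h8 => h3' h8 (hb2 y h6)
          rw [h5, Perm.notMem_support.1 h7]
        · rw [hb y h6, h5, hb y h6]
    have h7 := card_le_card hcov
    have h8 := card_union_le (I ∪ I.image ⇑t⁻¹) (I.image ⇑b⁻¹)
    have h9 := card_union_le I (I.image ⇑t⁻¹)
    have h10 : #(I.image ⇑t⁻¹) ≤ #I := card_image_le
    have h11 : #(I.image ⇑b⁻¹) ≤ #I := card_image_le
    omega
  · refine card_le_card_of_injOn (fun y => t y) ?_ (t.injective.injOn)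
    intro y hy
    rw [mem_coe, mem_filter] at hy
    rw [mem_coe, mem_filter]
    exact ⟨Perm.apply_mem_support.2 hy.1, hy.2.2⟩

lemma RLi_const (hk : 1 ≤ k) (c : ℝ) (L : ℕ) : (RL x)^[L] (fun _ => c) = fun _ => c := by
  have hk' : (0 : ℝ) < k := by exact_mod_cast hk
  induction L with
  | zero => rfl
  | succ L ih =>
    rw [Function.iterate_succ_apply', ih]
    funext g
    unfold RL
    rw [sum_const, card_univ, Fintype.card_fin, nsmul_eq_mul]
    field_simp
    ring

lemma card_tup2 (n : ℕ) : (Fintype.card (RC14.Tup 2 n) : ℝ) = n * (n - 1) := by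
  rw [Fintype.card_embedding_eq, Fintype.card_fin, Fintype.card_fin]
  rcases n with _ | n
  · simp [Nat.descFactorial]
  · simp [Nat.descFactorial]
    ring

lemma W_near (hk : 1 ≤ k) {ε : ℝ} (hε : ε ≤ 2) (hg : TGap x ε 2) {L : ℕ} (hn : 2 ≤ n)
    (hL : (1 - ε / 2) ^ L * (n : ℝ) ^ 2 ≤ 1 / (16 * (n : ℝ) ^ 2)) (φ : RC14.Tup 2 n → ℝ)
    (hφ : ∀ b, |φ b| ≤ 1) (a : RC14.Tup 2 n) :
    |(RL x)^[L] (fun g => φ (RC14.mv g a)) 1 - (∑ b, φ b) / (n * (n - 1))| ≤ 1 / (4 * n) := by
  have : Nonempty (RC14.Tup 2 n) := ⟨a⟩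
  have hn' : (2 : ℝ) ≤ n := by exact_mod_cast hn
  have h1 := tuple_point hk hε hg φ a L
  rw [card_tup2] at h1
  have h2 : ∑ b, φ b ^ 2 ≤ (n : ℝ) ^ 2 := by
    calc ∑ b, φ b ^ 2 ≤ ∑ b : RC14.Tup 2 n, (1 : ℝ) := by
          refine sum_le_sum fun b _ => ?_
          have := hφ b
          rw [← sq_abs]
          nlinarith [abs_nonneg (φ b)]
      _ = n * (n - 1) := by rw [sum_const, card_univ, nsmul_eq_mul, card_tup2, mul_one]
      _ ≤ (n : ℝ) ^ 2 := by nlinarith
  have h3 : ((RL x)^[L] (fun g => φ (RC14.mv g a)) 1 - (∑ b, φ b) / (n * (n - 1))) ^ 2 ≤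
      (1 / (4 * n)) ^ 2 := by
    refine h1.trans ((mul_le_mul_of_nonneg_left h2 (pow_nonneg (by linarith) _)).trans ?_)
    refine hL.trans (le_of_eq ?_)
    rw [div_pow, mul_pow]
    norm_num
  exact abs_le_of_sq_le_sq h3 (by positivity)

/-- one reduction step -/
lemma step (hk : 1 ≤ k) {ε : ℝ} (hε : ε ≤ 2) (hg : TGap x ε 2) {L ℓ : ℕ}
    (hL : (1 - ε / 2) ^ L * (n : ℝ) ^ 2 ≤ 1 / (16 * (n : ℝ) ^ 2)) {t : Perm (Fin n)}
    (ht : t ∈ PB x ℓ) (h8 : 8 * #t.support ≤ n) (hm : 8 * n ≤ #t.support ^ 2) (hn0 : 1 ≤ n) :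
    ∃ u ∈ PB x (4 * ℓ + 4 * L), #t.support ^ 2 ≤ 4 * n * #u.support ∧
      n * #u.support ≤ 6 * #t.support ^ 2 := by
  classical
  set S := t.support with hS
  have hs1 : 1 ≤ #S := by
    by_contra h
    have : #S = 0 := by omega
    rw [this] at hm
    omega
  have hn : 2 ≤ n := by omega
  have hn' : (2 : ℝ) ≤ n := by exact_mod_cast hn
  set s : ℝ := (#S : ℝ) with hs
  have hs1' : (1 : ℝ) ≤ s := by rw [hs]; exact_mod_cast hs1
  have h8' : 8 * s ≤ n := by rw [hs]; exact_mod_cast h8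
  have hm' : 8 * (n : ℝ) ≤ s ^ 2 := by rw [hs]; exact_mod_cast hm
  set ind : Fin n → ℝ := fun y => if y ∈ S then 1 else 0 with hind
  have hindsum : ∑ y, ind y = s := by
    rw [hind, sum_ite_mem, univ_inter, sum_const, nsmul_eq_mul, mul_one]
  have hind2 : ∀ y, ind y * ind y = ind y := by
    intro y
    by_cases h : y ∈ S <;> simp [hind, h]
  have hind01 : ∀ y, ind y = 0 ∨ ind y = 1 := by
    intro y
    by_cases h : y ∈ S <;> simp [hind, h]
  -- the three test functions
  set φ1 : RC14.Tup 2 n → ℝ := fun b => (1 - ind (b 0)) * ind (b 1) with hφ1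
  set φ2 : RC14.Tup 2 n → ℝ := fun b => ind (b 0) * ind (b 1) with hφ2
  set φ3 : RC14.Tup 2 n → ℝ := fun b => ind (b 0) with hφ3
  have hb1 : ∀ b, |φ1 b| ≤ 1 := by
    intro b
    rcases hind01 (b 0) with h | h <;> rcases hind01 (b 1) with h' | h' <;>
      simp only [hφ1, h, h'] <;> norm_num
  have hb2 : ∀ b, |φ2 b| ≤ 1 := by
    intro b
    rcases hind01 (b 0) with h | h <;> rcases hind01 (b 1) with h' | h' <;>
      simp only [hφ2, h, h'] <;> norm_num
  have hb3 : ∀ b, |φ3 b| ≤ 1 := by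
    intro b
    rcases hind01 (b 0) with h | h <;> simp only [hφ3, h] <;> norm_num
  have hm1 : ∑ b, φ1 b = (n - s) * s := by
    have h1 := sum_tup2 (n := n) (fun u v => (1 - ind u) * ind v)
    rw [hφ1, h1]
    have h2 : ∑ u, ∑ v, (1 - ind u) * ind v = (n - s) * s := by
      have h3 : ∀ u, ∑ v, (1 - ind u) * ind v = (1 - ind u) * s := fun u => by
        rw [← mul_sum, hindsum]
      rw [sum_congr rfl fun u _ => h3 u, ← sum_mul, sum_sub_distrib, hindsum, sum_const,
        card_univ, Fintype.card_fin, nsmul_eq_mul, mul_one]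
    have h4 : ∑ u, (1 - ind u) * ind u = 0 := by
      refine sum_eq_zero fun u _ => ?_
      have := hind2 u
      linarith
    rw [h2, h4, sub_zero]
  have hm2 : ∑ b, φ2 b = s * s - s := by
    have h1 := sum_tup2 (n := n) (fun u v => ind u * ind v)
    rw [hφ2, h1]
    have h2 : ∑ u, ∑ v, ind u * ind v = s * s := by
      have h3 : ∀ u, ∑ v, ind u * ind v = ind u * s := fun u => by
        rw [← mul_sum, hindsum]
      rw [sum_congr rfl fun u _ => h3 u, ← sum_mul, hindsum]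
    rw [h2, sum_congr rfl fun u _ => hind2 u, hindsum]
  have hm3 : ∑ b, φ3 b = n * s - s := by
    have h1 := sum_tup2 (n := n) (fun u _ => ind u)
    rw [hφ3, h1, hindsum]
    have h2 : ∑ u, ∑ _v : Fin n, ind u = n * s := by
      have h3 : ∀ u, ∑ _v : Fin n, ind u = n * ind u := fun u => by
        rw [sum_const, card_univ, Fintype.card_fin, nsmul_eq_mul]
      rw [sum_congr rfl fun u _ => h3 u, ← mul_sum, hindsum]
    rw [h2]
  -- the functions of the permutation
  have hty : ∀ y ∈ S, y ≠ t y := fun y hy => (Perm.mem_support.1 hy).symm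
  set c : ℝ := n / (2 * s ^ 2) with hc
  set m : ℝ := s ^ 2 / n with hmdef
  set F1 : Perm (Fin n) → ℝ := fun g => ∑ y ∈ S, (1 - ind (g y)) * ind (g (t y)) with hF1
  set F2 : Perm (Fin n) → ℝ := fun g => ∑ y ∈ S, ∑ z ∈ S, ind (g y) * ind (g z) with hF2
  have hW1 : s * ((n - s) * s / (n * (n - 1)) - 1 / (4 * n)) ≤ (RL x)^[L] F1 1 := by
    rw [hF1, RLi_sum]
    have h1 : ∀ y ∈ S, (n - s) * s / (n * (n - 1)) - 1 / (4 * n) ≤
        (RL x)^[L] (fun g => (1 - ind (g y)) * ind (g (t y))) 1 := by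
      intro y hy
      have h2 := W_near hk hε hg hn hL φ1 hb1 (pr y (t y) (hty y hy))
      rw [hm1] at h2
      have h3 := (abs_le.1 h2).1
      have h4 : (fun g : Perm (Fin n) => φ1 (RC14.mv g (pr y (t y) (hty y hy)))) =
        fun g : Perm (Fin n) => (1 - ind (g y)) * ind (g (t y)) := rfl
      rw [h4] at h3
      linarith
    have h2 := card_nsmul_le_sum S _ _ h1
    rw [nsmul_eq_mul] at h2
    exact h2
  have hW2 : (RL x)^[L] F2 1 ≤ s * (s - 1) * ((s * s - s) / (n * (n - 1)) + 1 / (4 * n)) +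
      s * ((n * s - s) / (n * (n - 1)) + 1 / (4 * n)) := by
    rw [hF2, RLi_sum]
    have h1 : ∀ y ∈ S, (RL x)^[L] (fun g => ∑ z ∈ S, ind (g y) * ind (g z)) 1 ≤
        (s - 1) * ((s * s - s) / (n * (n - 1)) + 1 / (4 * n)) +
        ((n * s - s) / (n * (n - 1)) + 1 / (4 * n)) := by
      intro y hy
      rw [RLi_sum]
      change ∑ z ∈ S, (RL x)^[L] (fun g => ind (g y) * ind (g z)) 1 ≤ _
      rw [← add_sum_erase S _ hy, add_comm]
      refine add_le_add ?_ ?_
      · have h2 : ∀ z ∈ S.erase y, (RL x)^[L] (fun g => ind (g y) * ind (g z)) 1 ≤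
            (s * s - s) / (n * (n - 1)) + 1 / (4 * n) := by
          intro z hz
          have h3 := W_near hk hε hg hn hL φ2 hb2 (pr y z (ne_of_mem_erase hz).symm)
          rw [hm2] at h3
          have h4 := (abs_le.1 h3).2
          have h5 : (fun g : Perm (Fin n) => φ2 (RC14.mv g (pr y z (ne_of_mem_erase hz).symm))) =
            fun g : Perm (Fin n) => ind (g y) * ind (g z) := rfl
          rw [h5] at h4
          linarith
        have h3 := sum_le_card_nsmul _ _ _ h2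
        have h6 : ((#S - 1 : ℕ) : ℝ) = s - 1 := by rw [Nat.cast_sub hs1, Nat.cast_one]
        rw [nsmul_eq_mul, card_erase_of_mem hy, h6] at h3
        exact h3
      · have h3 := W_near hk hε hg hn hL φ3 hb3 (pr y (t y) (hty y hy))
        rw [hm3] at h3
        have h4 := (abs_le.1 h3).2
        have h5 : (fun g : Perm (Fin n) => φ3 (RC14.mv g (pr y (t y) (hty y hy)))) =
          fun g : Perm (Fin n) => ind (g y) * ind (g y) := by
          funext g
          rw [hind2]
          rfl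
        rw [h5] at h4
        linarith
    have h2 := sum_le_card_nsmul _ _ _ h1
    rw [nsmul_eq_mul] at h2
    refine h2.trans (le_of_eq ?_)
    ring
  have hpos : 0 < (RL x)^[L] (fun g => F1 g + (-c) * F2 g + (-(m / 4))) 1 := by
    have e1 : (RL x)^[L] (fun g => F1 g + (-c) * F2 g + (-(m / 4))) =
        fun g => (RL x)^[L] F1 g + (-c) * (RL x)^[L] F2 g + (-(m / 4)) := by
      have e2 := RLi_add (x := x) (fun g => F1 g + (-c) * F2 g) (fun _ => -(m / 4)) L
      have e3 := RLi_add (x := x) F1 (fun g => (-c) * F2 g) L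
      have e4 := RLi_smul (x := x) (-c) F2 L
      have e5 := RLi_const (x := x) hk (-(m / 4)) L
      rw [e2, e3, e4, e5]
    rw [e1]
    beta_reduce
    have hc0 : 0 < c := by rw [hc]; positivity
    have h1 := mul_le_mul_of_nonneg_left hW2 hc0.le
    have hm8 : 8 ≤ m := by rw [hmdef, le_div_iff₀ (by linarith)]; exact hm'
    have hn1 : (0 : ℝ) < n - 1 := by linarith
    have e1 : 7 / 8 * m - 1 / 32 ≤ s * ((n - s) * s / (n * (n - 1)) - 1 / (4 * n)) := by
      have h2 : 7 / 8 * m ≤ s * ((n - s) * s / (n * (n - 1))) := by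
        rw [hmdef, ← mul_div_assoc, ← mul_div_assoc, div_le_div_iff₀ (by linarith) (by positivity)]
        have h3 : 7 / 8 * (n : ℝ) ≤ n - s := by linarith
        have h4 : 7 / 8 * ((n : ℝ) - 1) ≤ n - s := by linarith
        have h5 : 0 ≤ s ^ 2 * n := by positivity
        nlinarith [mul_le_mul_of_nonneg_left h4 h5]
      have h3 : s * (1 / (4 * n)) ≤ 1 / 32 := by
        rw [mul_one_div, div_le_div_iff₀ (by linarith) (by norm_num)]
        linarith
      rw [mul_sub]
      linarith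
    have e2 : c * (s * (s - 1) * ((s * s - s) / (n * (n - 1)) + 1 / (4 * n)) +
      s * ((n * s - s) / (n * (n - 1)) + 1 / (4 * n))) ≤ m / 2 + 1 / 2 + 1 / 8 := by
      have h2 : c * (s * (s - 1) * ((s * s - s) / (n * (n - 1)) + 1 / (4 * n)) +
        s * ((n * s - s) / (n * (n - 1)) + 1 / (4 * n))) =
          (s - 1) ^ 2 / (2 * (n - 1)) + 1 / 2 + 1 / 8 := by
        rw [hc]
        field_simp
        ring
      rw [h2]
      have h3 : (s - 1) ^ 2 / (2 * (n - 1)) ≤ m / 2 := by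
        rw [hmdef, div_div, div_le_div_iff₀ (by linarith) (by linarith)]
        nlinarith [mul_nonneg (by linarith : (0 : ℝ) ≤ s - 1) (by linarith : (0 : ℝ) ≤ n - s)]
      linarith
    linarith
  obtain ⟨h, hh1, hh2⟩ := RLi_pos L hpos
  rw [mul_one] at hh2
  -- counting
  obtain ⟨b1, b2, b3⟩ := comm_bounds t h
  set A := #(t.support.filter fun y => h y ∈ t.support) with hA
  set B := #(t.support.filter fun y => h y ∉ t.support ∧ h (t y) ∈ t.support) with hB
  have hF1B : F1 h = B := by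
    rw [hF1, hB, card_filter]
    push_cast
    refine sum_congr rfl fun y _ => ?_
    by_cases h1 : h y ∈ S <;> by_cases h2 : h (t y) ∈ S <;> simp [hind, h1, h2, ← hS]
  have hF2A : F2 h = (A : ℝ) ^ 2 := by
    have h1 : ∑ y ∈ S, ind (h y) = A := by
      rw [hA, card_filter]
      push_cast
      refine sum_congr rfl fun y _ => ?_
      by_cases h1 : h y ∈ S <;> simp [hind, h1, ← hS]
    rw [hF2, ← h1, sq, sum_mul_sum]
  rw [hF1B, hF2A] at hh2
  have hBA : (B : ℝ) ≤ A := by exact_mod_cast b3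
  have hm0 : 0 < m := by rw [hmdef]; positivity
  have hcm : c * (2 * m) = 1 := by
    rw [hc, hmdef]
    field_simp
  have hB4 : m / 4 < B := by
    have : 0 ≤ c * (A : ℝ) ^ 2 := by rw [hc]; positivity
    linarith
  have hA2 : (A : ℝ) < 2 * m := by
    by_contra hcon
    push Not at hcon
    have h1 : (2 * m) * A ≤ (A : ℝ) ^ 2 := by nlinarith
    have h2 : c * ((2 * m) * A) ≤ c * (A : ℝ) ^ 2 :=
      mul_le_mul_of_nonneg_left h1 (by rw [hc]; positivity)
    have h3 : c * ((2 * m) * A) = A := by rw [← mul_assoc, hcm, one_mul]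
    linarith
  refine ⟨t * (h⁻¹ * t * h) * t⁻¹ * (h⁻¹ * t * h)⁻¹, ?_, ?_, ?_⟩
  · have hconj : h⁻¹ * t * h ∈ PB x (ℓ + 2 * L) := by
      have := PB.conj ht (PB.inv hh1)
      rwa [inv_inv] at this
    exact PB.mono (by omega) (PB.mul (PB.mul (PB.mul ht hconj) (PB.inv ht)) (PB.inv hconj))
  · have h1 : s ^ 2 ≤ 4 * n * B := by
      have h2 : m * n = s ^ 2 := by rw [hmdef]; field_simp
      nlinarith
    have h3 : #S ^ 2 ≤ 4 * n * B := by rw [hs] at h1; exact_mod_cast h1
    exact h3.trans (Nat.mul_le_mul_left _ b1)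
  · have h1 : (n : ℝ) * (3 * A) ≤ 6 * s ^ 2 := by
      have h2 : m * n = s ^ 2 := by rw [hmdef]; field_simp
      nlinarith
    have h3 : n * (3 * A) ≤ 6 * #S ^ 2 := by rw [hs] at h1; exact_mod_cast h1
    exact (Nat.mul_le_mul_left _ b2).trans h3

/-- iterating the reduction: from support at most `n / 8` to support at most `M` and at least
`M ^ 2 / 4 n` -/
lemma reduce (hk : 1 ≤ k) {ε : ℝ} (hε : ε ≤ 2) (hg : TGap x ε 2) {L M : ℕ}
    (hL : (1 - ε / 2) ^ L * (n : ℝ) ^ 2 ≤ 1 / (16 * (n : ℝ) ^ 2)) (hn0 : 1 ≤ n)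
    (hM : 8 * n ≤ M ^ 2) (s : ℕ) : ∀ (ℓ : ℕ) (t : Perm (Fin n)), t ∈ PB x ℓ → #t.support = s →
      8 * s ≤ n → M ^ 2 ≤ 4 * n * s →
      ∃ u, ∃ ℓ' : ℕ, u ∈ PB x ℓ' ∧ #u.support ≤ M ∧ M ^ 2 ≤ 4 * n * #u.support ∧
        (ℓ' + 2 * L) * M ^ 5 ≤ 4 * ((ℓ + 2 * L) * (max s M) ^ 5) := by
  induction s using Nat.strong_induction_on with
  | _ s ih =>
    intro ℓ t ht hs h8 hlow
    by_cases hsM : s ≤ M
    · refine ⟨t, ℓ, ht, by omega, by rw [hs]; exact hlow, ?_⟩
      rw [max_eq_right hsM]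
      omega
    · push Not at hsM
      have hsq : M ^ 2 ≤ s ^ 2 := Nat.pow_le_pow_left hsM.le 2
      obtain ⟨u, hu, hu1, hu2⟩ := step hk hε hg hL ht (by rw [hs]; exact h8)
        (by rw [hs]; exact hM.trans hsq) hn0
      rw [hs] at hu1 hu2
      -- `4 s' ≤ 3 s`
      have h34 : 4 * #u.support ≤ 3 * s := by
        have h1 : n * (4 * #u.support) ≤ n * (3 * s) := by nlinarith
        exact Nat.le_of_mul_le_mul_left h1 (by omega)
      have hlt : #u.support < s := by omega
      by_cases huM : #u.support ≤ M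
      · refine ⟨u, 4 * ℓ + 4 * L, hu, huM, hsq.trans hu1, ?_⟩
        rw [max_eq_left hsM.le]
        have h1 : M ^ 5 ≤ s ^ 5 := Nat.pow_le_pow_left hsM.le 5
        calc (4 * ℓ + 4 * L + 2 * L) * M ^ 5 ≤ (4 * (ℓ + 2 * L)) * s ^ 5 :=
              Nat.mul_le_mul (by omega) h1
          _ = 4 * ((ℓ + 2 * L) * s ^ 5) := by ring
      · push Not at huM
        obtain ⟨v, ℓ', hv, hv1, hv2, hv3⟩ := ih _ hlt (4 * ℓ + 4 * L) u hu rfl (by omega)
          (hsq.trans hu1)
        refine ⟨v, ℓ', hv, hv1, hv2, hv3.trans ?_⟩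
        rw [max_eq_left hsM.le, max_eq_left huM.le]
        have h1 : (4 * #u.support) ^ 5 ≤ (3 * s) ^ 5 := Nat.pow_le_pow_left h34 5
        have h2 : 4 * #u.support ^ 5 ≤ s ^ 5 := by
          rw [mul_pow, mul_pow] at h1
          omega
        calc 4 * ((4 * ℓ + 4 * L + 2 * L) * #u.support ^ 5)
            ≤ 4 * ((4 * (ℓ + 2 * L)) * #u.support ^ 5) :=
              Nat.mul_le_mul_left _ (Nat.mul_le_mul_right _ (by omega))
          _ = 4 * ((ℓ + 2 * L) * (4 * #u.support ^ 5)) := by ring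
          _ ≤ 4 * ((ℓ + 2 * L) * s ^ 5) :=
              Nat.mul_le_mul_left _ (Nat.mul_le_mul_left _ h2)

end

end RD516
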